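import Mathlib
import Pool.Agent.H548.WM.Main

/-!
# Project NC (helper38): rational points on divisors of type `(1,2)` in the product of two
projective planes (nets of conics). Definitions and statements of the parts.
-/

set_option autoImplicit false

namespace Pool.Agent.R38.NC

open Matrix Finset
open Pool.Agent.H548.WM (ht bx Rep)

/-- the matrix of the conic with the parameter `t` -/
def gm {R : Type*} [CommRing R] (M : Fin 3 → Matrix (Fin 3) (Fin 3) ℤ) (t : Fin 3 → R) :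
    Matrix (Fin 3) (Fin 3) R :=
  fun j k => ∑ i, t i * (M i j k : R)

/-- the value of the quadratic form with the matrix `A` -/
def qf {R : Type*} [CommRing R] (A : Matrix (Fin 3) (Fin 3) R) (x : Fin 3 → R) : R :=
  x ⬝ᵥ A.mulVec x

/-- the values of the three quadratic forms of the net -/
def cq {R : Type*} [CommRing R] (M : Fin 3 → Matrix (Fin 3) (Fin 3) ℤ) (x : Fin 3 → R)
    (i : Fin 3) : R :=
  qf ((M i).map (Int.castRingHom R)) x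

/-- the divisor is smooth: at no complex point of it do all partial derivatives vanish -/
def Smooth (M : Fin 3 → Matrix (Fin 3) (Fin 3) ℤ) : Prop :=
  ∀ t x : Fin 3 → ℂ, t ≠ 0 → x ≠ 0 → qf (gm M t) x = 0 →
    (∃ i, cq M x i ≠ 0) ∨ (∃ j, (gm M t).mulVec x j ≠ 0)

/-- no conic of the net is a double line: the `2 × 2` minors do not all vanish -/
def NoDouble (M : Fin 3 → Matrix (Fin 3) (Fin 3) ℤ) : Prop :=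
  ∀ t : Fin 3 → ℂ, t ≠ 0 → ∃ i j, (gm M t).adjugate i j ≠ 0

/-- primitive integer vectors -/
def Prim {n : ℕ} (v : Fin n → ℤ) : Prop := ∀ d : ℤ, (∀ i, d ∣ v i) → IsUnit d

/-- Part TRI: the number of primitive vectors with small brackets. -/
def S_TRI : Prop := ∀ (n : ℕ) (S : Finset (Fin n → ℤ)) (N : (Fin n → ℤ) → (Fin n → ℤ) → ℤ),
  (∀ v ∈ S, Prim v) → (∀ u ∈ S, ∀ v ∈ S, u ≠ v → N u v ≠ 0) →
  (∀ u ∈ S, ∀ v ∈ S, N v u = -N u v) →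
  (∀ u ∈ S, ∀ v ∈ S, ∀ w ∈ S, ∀ i, N v w * u i + N w u * v i + N u v * w i = 0) →
  (∀ Q : ℕ, (∀ u ∈ S, ∀ v ∈ S, |N u v| ≤ (Q : ℤ)) → S.card ≤ 4 * Q + 2) ∧
  (∀ W : ℝ, 1 ≤ W → (∀ u ∈ S, ∀ v ∈ S, ∀ w ∈ S,
    ((|N u v * N v w * N w u| : ℤ) : ℝ) ≤ W ^ 3) → (S.card : ℝ) ≤ 8 * W + 2)

/-- Part BAS: coordinates adapted to a rational point of a conic. -/
def S_BAS : Prop := ∀ M : Matrix (Fin 3) (Fin 3) ℤ, M.IsSymm → M.det ≠ 0 →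
  ∀ x : Fin 3 → ℤ, Prim x → qf M x = 0 →
    ∃ U : Matrix (Fin 3) (Fin 3) ℤ, IsUnit U.det ∧ (∀ i, U i 2 = x i) ∧ (Uᵀ * M * U) 0 2 = 0

/-- Part PAR: parametrization of the zeros. -/
def S_PAR : Prop := ∀ a b c g u v w : ℤ, v ≠ 0 →
  (∀ d : ℤ, d ∣ u → d ∣ v → d ∣ w → IsUnit d) → g ≠ 0 →
  a * u ^ 2 + 2 * b * u * v + c * v ^ 2 + 2 * g * v * w = 0 →
  ∃ s t k β : ℤ, IsCoprime s t ∧ 0 < k ∧ u = k * s ∧ v = k * t ∧ β ≠ 0 ∧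
    k * β = -(2 * g * t) ∧ β * w = a * s ^ 2 + 2 * b * s * t + c * t ^ 2

/-- Part DVD: divisibility of the brackets within a class. -/
def S_DVD : Prop := ∀ (a b c g : ℤ) (K h : ℕ), g ≠ 0 → 1 ≤ h →
  (∀ d : ℤ, d ∣ a * c - b ^ 2 → d ∣ g → d ∣ (K : ℤ)) →
  ∀ s t : Fin 3 → ℤ, (∀ i, IsCoprime (s i) (t i)) → (∀ i, (h : ℤ) ∣ 2 * g * t i) →
    (∀ i, (h : ℤ) ∣ a * s i ^ 2 + 2 * b * s i * t i + c * t i ^ 2) →
    Int.gcd (Int.gcd h (2 * g)) ((s 0 * t 1 - s 1 * t 0) / ((h : ℤ) / Int.gcd h (2 * g))) =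
      Int.gcd (Int.gcd h (2 * g)) ((s 0 * t 2 - s 2 * t 0) / ((h : ℤ) / Int.gcd h (2 * g))) →
    (h : ℤ) ∣ 4 * (K : ℤ) * (s 1 * t 2 - s 2 * t 1)

/-- Part CON: the number of rational points of bounded height on a conic. -/
def S_CON : Prop := ∀ (K : ℕ) (M : Matrix (Fin 3) (Fin 3) ℤ), 1 ≤ K → M.IsSymm → M.det ≠ 0 →
  (∀ d : ℤ, (∀ i j, d ∣ M.adjugate i j) → d ∣ (K : ℤ)) →
  ∀ (X : ℕ) (S : Finset (Fin 3 → ℤ)), 1 ≤ X → (∀ x ∈ S, Rep x ∧ ht x ≤ X ∧ qf M x = 0) →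
    (S.card : ℝ) ≤ 1 + ((Nat.divisors (2 * M.det.natAbs)).card : ℝ) ^ 2 *
      (10 + 40 * (K * X) / ((M.det.natAbs : ℝ) ^ ((1 : ℝ) / 3)))

/-- Part SUM: sums of negative powers of the values of a cubic form. -/
def S_SUM : Prop := ∀ P : MvPolynomial (Fin 3) ℤ, P.IsHomogeneous 3 → P ≠ 0 →
  ∃ C : ℝ, 0 ≤ C ∧ ∀ T : ℕ, 1 ≤ T →
    ∑ t ∈ (bx 3 T).filter (fun t => MvPolynomial.eval t P ≠ 0),
      1 / (((MvPolynomial.eval t P).natAbs : ℝ) ^ ((1 : ℝ) / 3)) ≤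
      C * (T : ℝ) ^ 2 * (1 + Real.log T)

/-- Part NST: quadratic forms without common zeros. -/
def S_NST : Prop := ∀ (n : ℕ) (f : Fin n → MvPolynomial (Fin 3) ℤ),
  (∀ k, (f k).IsHomogeneous 2) →
  (∀ x : Fin 3 → ℂ, x ≠ 0 → ∃ k, MvPolynomial.aeval x (f k) ≠ 0) →
  (∃ K : ℕ, 1 ≤ K ∧ ∀ x : Fin 3 → ℤ, Prim x →
    ∀ d : ℤ, (∀ k, d ∣ MvPolynomial.eval x (f k)) → d ∣ (K : ℤ)) ∧
  (∃ c : ℝ, 0 < c ∧ ∀ x : Fin 3 → ℤ, x ≠ 0 →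
    ∃ k, c * (ht x : ℝ) ^ 2 ≤ |((MvPolynomial.eval x (f k) : ℤ) : ℝ)|)

/-- the points in a box -/
noncomputable def PP (M : Fin 3 → Matrix (Fin 3) (Fin 3) ℤ) (A B : ℕ) :
    Finset ((Fin 3 → ℤ) × (Fin 3 → ℤ)) := by
  classical
  exact ((bx 3 A) ×ˢ (bx 3 B)).filter fun z =>
    Rep z.1 ∧ Rep z.2 ∧ qf (gm M z.1) z.2 = 0 ∧ (gm M z.1).det ≠ 0

/-- Part LAT: counting the parameters of the conics through a given point. -/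
def S_LAT : Prop := ∀ M : Fin 3 → Matrix (Fin 3) (Fin 3) ℤ,
  (∀ x : Fin 3 → ℂ, x ≠ 0 → ∃ i, cq M x i ≠ 0) →
  ∃ C : ℝ, 0 ≤ C ∧ ∀ A B : ℕ, 1 ≤ A → 1 ≤ B →
    ((PP M A B).card : ℝ) ≤ C * ((B : ℝ) ^ 3 + (A : ℝ) ^ 2 * B)

/-- Part GEO: consequences of smoothness. -/
def S_GEO : Prop := ∀ M : Fin 3 → Matrix (Fin 3) (Fin 3) ℤ, (∀ i, (M i).IsSymm) →
  Smooth M → NoDouble M →
  (∀ x : Fin 3 → ℂ, x ≠ 0 → ∃ i, cq M x i ≠ 0) ∧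
  (∃ t : Fin 3 → ℤ, (gm M t).det ≠ 0) ∧
  (∃ t x : Fin 3 → ℂ, t ≠ 0 ∧ x ≠ 0 ∧ qf (gm M t) x = 0 ∧ (gm M t).det ≠ 0)

/-- Part BOX: the number of points in a box. -/
def S_BOX : Prop := ∀ M : Fin 3 → Matrix (Fin 3) (Fin 3) ℤ, (∀ i, (M i).IsSymm) →
  (∀ x : Fin 3 → ℂ, x ≠ 0 → ∃ i, cq M x i ≠ 0) → NoDouble M →
  (∃ t : Fin 3 → ℤ, (gm M t).det ≠ 0) →
  ∀ ε : ℝ, 0 < ε → ∃ C : ℝ, 0 ≤ C ∧ ∀ A B : ℕ, 1 ≤ A → 1 ≤ B →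
    ((PP M A B).card : ℝ) ≤ C * ((A : ℝ) ^ 2 * B) * ((A : ℝ) * B) ^ ε

end Pool.Agent.R38.NC
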