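import Mathlib
import Pool.Agent.R38.NC.Stm

/-!
# Project NC, part BAS (helper38)
-/

set_option autoImplicit false

namespace Pool.Agent.R38.NC

open Matrix Finset

theorem bezout3 {v : Fin 3 → ℤ} (hv : Prim v) : ∃ u : Fin 3 → ℤ, ∑ i, u i * v i = 1 := by
  have h1 : Ideal.span (Set.range v) = ⊤ := by
    obtain ⟨d, hd⟩ := (IsPrincipalIdealRing.principal (Ideal.span (Set.range v))).principal
    have hd' : Ideal.span (Set.range v) = Ideal.span {d} := hd
    have h2 : ∀ i, d ∣ v i := by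
      intro i
      have : v i ∈ Ideal.span {d} := by
        rw [← hd']
        exact Ideal.subset_span ⟨i, rfl⟩
      exact Ideal.mem_span_singleton.1 this
    rw [hd']
    exact Ideal.span_singleton_eq_top.2 (hv d h2)
  have h2 : (1 : ℤ) ∈ Ideal.span (Set.range v) := by rw [h1]; trivial
  obtain ⟨c, hc⟩ := Ideal.mem_span_range_iff_exists_fun.1 h2
  exact ⟨c, hc⟩

theorem bas2_ : S_BAS := by
  intro M hM hdet x hx hq
  obtain ⟨f, hf⟩ : ∃ f, f = M.mulVec x := ⟨_, rfl⟩
  have hx0 : x ≠ 0 := by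
    intro h0
    have := hx 0 (fun i => by rw [h0, Pi.zero_apply])
    exact not_isUnit_zero this
  have hf0 : f ≠ 0 := by
    intro h0
    apply hx0
    exact Matrix.eq_zero_of_mulVec_eq_zero hdet (by rw [← hf, h0])
  have hfx : ∑ i, x i * f i = 0 := by
    rw [hf]
    exact hq
  obtain ⟨i0, hi0⟩ : ∃ i, f i ≠ 0 := by
    by_contra hcon
    push Not at hcon
    exact hf0 (funext hcon)
  obtain ⟨f', hf1, hf2⟩ := Finset.extract_gcd (s := (Finset.univ : Finset (Fin 3))) f ⟨0, mem_univ _⟩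
  set d := Finset.univ.gcd f with hd
  have hd0 : d ≠ 0 := by
    intro h0
    apply hi0
    rw [hf1 i0 (mem_univ _), h0, zero_mul]
  have hf'p : Prim f' := by
    intro e he
    have h1 : e ∣ Finset.univ.gcd f' := Finset.dvd_gcd fun i _ => he i
    rw [hf2] at h1
    exact isUnit_of_dvd_one h1
  obtain ⟨u, hu⟩ := bezout3 hx
  obtain ⟨e, he⟩ := bezout3 hf'p
  have hfx' : ∑ i, x i * f' i = 0 := by
    apply mul_left_cancel₀ hd0
    rw [mul_zero, ← hfx, Finset.mul_sum]
    refine Finset.sum_congr rfl fun i _ => ?_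
    rw [hf1 i (mem_univ _)]
    ring
  rw [Fin.sum_univ_three] at hfx' hu he
  refine ⟨!![f' 1 * u 2 - f' 2 * u 1, e 0, x 0; f' 2 * u 0 - f' 0 * u 2, e 1, x 1;
    f' 0 * u 1 - f' 1 * u 0, e 2, x 2], ?_, ?_, ?_⟩
  · rw [Int.isUnit_iff]
    left
    rw [Matrix.det_fin_three]
    simp only [Matrix.of_apply, Matrix.cons_val_zero, Matrix.cons_val_one, Matrix.cons_val]
    linear_combination (u 0 * x 0 + u 1 * x 1 + u 2 * x 2) * he -
      (e 0 * u 0 + e 1 * u 1 + e 2 * u 2) * hfx' + hu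
  · intro i
    fin_cases i <;> rfl
  · have e1 : ∀ U : Matrix (Fin 3) (Fin 3) ℤ, (∀ i, U i 2 = x i) →
        (Uᵀ * M * U) 0 2 = ∑ i, U i 0 * f i := by
      intro U hU
      rw [Matrix.mul_assoc, Matrix.mul_apply]
      refine Finset.sum_congr rfl fun i _ => ?_
      rw [Matrix.transpose_apply, Matrix.mul_apply, hf]
      simp only [Matrix.mulVec, dotProduct, hU]
    rw [e1 _ (by intro i; fin_cases i <;> rfl), Fin.sum_univ_three, hf1 0 (mem_univ _),
      hf1 1 (mem_univ _), hf1 2 (mem_univ _)]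
    simp only [Matrix.of_apply, Matrix.cons_val_zero, Matrix.cons_val_one, Matrix.cons_val]
    ring

end Pool.Agent.R38.NC
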