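import Pool.Agent.R38.NC.Stm

/-!
# Project NC, part BOX: the number of points in a box
-/

set_option autoImplicit false

namespace Pool.Agent.R38.NC

open Matrix Finset
open Pool.Agent.H548.WM (ht bx Rep mem_bx card_bx_le le_ht')

namespace Box

/-- the matrix of linear forms -/
noncomputable def gp (M : Fin 3 → Matrix (Fin 3) (Fin 3) ℤ) :
    Matrix (Fin 3) (Fin 3) (MvPolynomial (Fin 3) ℤ) :=
  fun j k => ∑ i, MvPolynomial.X i * MvPolynomial.C (M i j k)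

theorem gp_hom (M : Fin 3 → Matrix (Fin 3) (Fin 3) ℤ) (j k : Fin 3) :
    (gp M j k).IsHomogeneous 1 := by
  unfold gp
  refine MvPolynomial.IsHomogeneous.sum _ _ _ fun i _ => ?_
  have := (MvPolynomial.isHomogeneous_X ℤ i).mul (MvPolynomial.isHomogeneous_C (Fin 3) (M i j k))
  simpa using this

theorem det_hom (M : Fin 3 → Matrix (Fin 3) (Fin 3) ℤ) : (gp M).det.IsHomogeneous 3 := by
  rw [Matrix.det_fin_three]
  have h := gp_hom M
  have h3 : ∀ a b c d e f, (gp M a b * gp M c d * gp M e f).IsHomogeneous 3 :=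
    fun a b c d e f => ((h a b).mul (h c d)).mul (h e f)
  exact (((((h3 _ _ _ _ _ _).sub (h3 _ _ _ _ _ _)).sub (h3 _ _ _ _ _ _)).add
    (h3 _ _ _ _ _ _)).add (h3 _ _ _ _ _ _)).sub (h3 _ _ _ _ _ _)

theorem adj_hom (M : Fin 3 → Matrix (Fin 3) (Fin 3) ℤ) (i j : Fin 3) :
    ((gp M).adjugate i j).IsHomogeneous 2 := by
  rw [Matrix.adjugate_fin_three]
  have h := gp_hom M
  have h2 : ∀ a b c d, (gp M a b * gp M c d).IsHomogeneous 2 :=
    fun a b c d => (h a b).mul (h c d)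
  have h4 : ∀ a b c d a' b' c' d',
      (gp M a b * gp M c d - gp M a' b' * gp M c' d').IsHomogeneous 2 :=
    fun a b c d a' b' c' d' => (h2 _ _ _ _).sub (h2 _ _ _ _)
  have h5 : ∀ a b c d a' b' c' d',
      (-(gp M a b * gp M c d) + gp M a' b' * gp M c' d').IsHomogeneous 2 :=
    fun a b c d a' b' c' d' => (h2 _ _ _ _).neg.add (h2 _ _ _ _)
  fin_cases i <;> fin_cases j
  · exact h4 _ _ _ _ _ _ _ _
  · exact h5 _ _ _ _ _ _ _ _
  · exact h4 _ _ _ _ _ _ _ _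
  · exact h5 _ _ _ _ _ _ _ _
  · exact h4 _ _ _ _ _ _ _ _
  · exact h5 _ _ _ _ _ _ _ _
  · exact h4 _ _ _ _ _ _ _ _
  · exact h5 _ _ _ _ _ _ _ _
  · exact h4 _ _ _ _ _ _ _ _

theorem map_gp (M : Fin 3 → Matrix (Fin 3) (Fin 3) ℤ) (t : Fin 3 → ℤ) :
    (MvPolynomial.eval t).mapMatrix (gp M) = gm M t := by
  ext j k
  simp [gp, gm]

theorem eval_det (M : Fin 3 → Matrix (Fin 3) (Fin 3) ℤ) (t : Fin 3 → ℤ) :
    MvPolynomial.eval t (gp M).det = (gm M t).det := by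
  rw [RingHom.map_det, map_gp]

theorem eval_adj (M : Fin 3 → Matrix (Fin 3) (Fin 3) ℤ) (t : Fin 3 → ℤ) (i j : Fin 3) :
    MvPolynomial.eval t ((gp M).adjugate i j) = (gm M t).adjugate i j := by
  have h := RingHom.map_adjugate (MvPolynomial.eval t) (gp M)
  rw [map_gp] at h
  have h2 := congrFun (congrFun h i) j
  exact h2

theorem aeval_adj (M : Fin 3 → Matrix (Fin 3) (Fin 3) ℤ) (t : Fin 3 → ℂ) (i j : Fin 3) :
    MvPolynomial.aeval t ((gp M).adjugate i j) = (gm M t).adjugate i j := by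
  have h := AlgHom.map_adjugate (MvPolynomial.aeval t : MvPolynomial (Fin 3) ℤ →ₐ[ℤ] ℂ) (gp M)
  have h1 : (MvPolynomial.aeval t : MvPolynomial (Fin 3) ℤ →ₐ[ℤ] ℂ).mapMatrix (gp M) =
      gm M t := by
    ext j k
    simp [gp, gm]
  rw [h1] at h
  exact congrFun (congrFun h i) j

theorem rep_prim {t : Fin 3 → ℤ} (h : Rep t) : Prim t := by
  intro d hd
  have h1 : d ∣ Finset.univ.gcd t := Finset.dvd_gcd fun i _ => hd i
  rw [h.1] at h1
  exact isUnit_of_dvd_one h1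

/-- the sum of the absolute values of the coefficients -/
def mx (M : Fin 3 → Matrix (Fin 3) (Fin 3) ℤ) : ℕ := 1 + ∑ i, ∑ j, ∑ k, (M i j k).natAbs

theorem gm_le (M : Fin 3 → Matrix (Fin 3) (Fin 3) ℤ) {t : Fin 3 → ℤ} {A : ℕ} (ht : ht t ≤ A)
    (j k : Fin 3) : |gm M t j k| ≤ (mx M : ℤ) * A := by
  unfold gm
  have h1 : ∀ i, |t i| ≤ (A : ℤ) := fun i => (le_ht' t i).trans (by exact_mod_cast ht)
  have h2 : ∑ i, (M i j k).natAbs ≤ mx M := by
    unfold mx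
    calc ∑ i, (M i j k).natAbs ≤ ∑ i, ∑ j, ∑ k, (M i j k).natAbs := by
          refine Finset.sum_le_sum fun i _ => ?_
          exact (Finset.single_le_sum (f := fun k => (M i j k).natAbs) (fun _ _ => Nat.zero_le _)
            (Finset.mem_univ k)).trans (Finset.single_le_sum
              (f := fun j => ∑ k, (M i j k).natAbs) (fun _ _ => Nat.zero_le _) (Finset.mem_univ j))
      _ ≤ 1 + _ := Nat.le_add_left _ _
  have h3 : (∑ i, |M i j k| : ℤ) ≤ (mx M : ℤ) := by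
    have h4 : (∑ i, |M i j k| : ℤ) = ((∑ i, (M i j k).natAbs : ℕ) : ℤ) := by
      push_cast
      rfl
    rw [h4]
    exact_mod_cast h2
  calc |∑ i, t i * ((M i j k : ℤ) : ℤ)| ≤ ∑ i, |t i * ((M i j k : ℤ) : ℤ)| :=
        Finset.abs_sum_le_sum_abs _ _
    _ ≤ ∑ i, |M i j k| * (A : ℤ) := by
        refine Finset.sum_le_sum fun i _ => ?_
        rw [abs_mul, mul_comm]
        exact mul_le_mul_of_nonneg_left (h1 i) (abs_nonneg _)
    _ = (∑ i, |M i j k|) * (A : ℤ) := by rw [Finset.sum_mul]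
    _ ≤ (mx M : ℤ) * A := mul_le_mul_of_nonneg_right h3 (by positivity)

theorem det_le (M : Fin 3 → Matrix (Fin 3) (Fin 3) ℤ) {t : Fin 3 → ℤ} {A : ℕ} (ht : ht t ≤ A) :
    (gm M t).det.natAbs ≤ 6 * (mx M * A) ^ 3 := by
  have h := gm_le M ht
  have hm : (0 : ℤ) ≤ (mx M : ℤ) * A := by positivity
  have h3 : ∀ a b c d e f, |gm M t a b * gm M t c d * gm M t e f| ≤ ((mx M : ℤ) * A) ^ 3 := by
    intro a b c d e f
    rw [abs_mul, abs_mul]
    calc |gm M t a b| * |gm M t c d| * |gm M t e f| ≤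
          ((mx M : ℤ) * A) * ((mx M : ℤ) * A) * ((mx M : ℤ) * A) := by
          have := h a b
          have := h c d
          have := h e f
          gcongr
      _ = _ := by ring
  have h1 : |(gm M t).det| ≤ 6 * ((mx M : ℤ) * A) ^ 3 := by
    rw [Matrix.det_fin_three]
    have e1 := abs_le.1 (h3 0 0 1 1 2 2)
    have e2 := abs_le.1 (h3 0 0 1 2 2 1)
    have e3 := abs_le.1 (h3 0 1 1 0 2 2)
    have e4 := abs_le.1 (h3 0 1 1 2 2 0)
    have e5 := abs_le.1 (h3 0 2 1 0 2 1)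
    have e6 := abs_le.1 (h3 0 2 1 1 2 0)
    rw [abs_le]
    constructor <;> linarith [e1.1, e1.2, e2.1, e2.2, e3.1, e3.2, e4.1, e4.2, e5.1, e5.2, e6.1,
      e6.2]
  rw [Int.abs_eq_natAbs] at h1
  exact_mod_cast h1

theorem gm_symm {M : Fin 3 → Matrix (Fin 3) (Fin 3) ℤ} (hM : ∀ i, (M i).IsSymm) (t : Fin 3 → ℤ) :
    (gm M t).IsSymm := by
  ext j k
  simp only [Matrix.transpose_apply, gm]
  refine Finset.sum_congr rfl fun i _ => ?_
  rw [(hM i).apply k j]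

end Box

open Box in
/-- the case `A ≤ B` -/
theorem box_le (h1 : S_CON) (h2 : S_SUM) (h3 : S_NST) (M : Fin 3 → Matrix (Fin 3) (Fin 3) ℤ)
    (hM : ∀ i, (M i).IsSymm) (hN : NoDouble M) (hT : ∃ t : Fin 3 → ℤ, (gm M t).det ≠ 0)
    (ε : ℝ) (hε : 0 < ε) : ∃ C : ℝ, 0 ≤ C ∧ ∀ A B : ℕ, 1 ≤ A → 1 ≤ B → A ≤ B →
    ((PP M A B).card : ℝ) ≤ C * ((A : ℝ) ^ 2 * B) * ((A : ℝ) * B) ^ ε := by
  classical
  -- the content of the adjugate
  obtain ⟨⟨K, hK1, hK⟩, -⟩ := h3 (3 * 3)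
    (fun k => (gp M).adjugate (finProdFinEquiv.symm k).1 (finProdFinEquiv.symm k).2)
    (fun k => adj_hom M _ _) (fun x hx => by
      obtain ⟨i, j, hij⟩ := hN x hx
      refine ⟨finProdFinEquiv (i, j), ?_⟩
      rw [Equiv.symm_apply_apply, aeval_adj]
      exact hij)
  have hK' : ∀ t : Fin 3 → ℤ, Rep t → ∀ d : ℤ, (∀ i j, d ∣ (gm M t).adjugate i j) → d ∣ (K : ℤ) := by
    intro t ht d hd
    refine hK t (rep_prim ht) d fun k => ?_
    rw [eval_adj]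
    exact hd _ _
  -- the sum
  have hP0 : (gp M).det ≠ 0 := by
    obtain ⟨t, ht⟩ := hT
    intro h
    apply ht
    rw [← eval_det, h, map_zero]
  obtain ⟨C3, hC3, hsum⟩ := h2 (gp M).det (det_hom M) hP0
  -- the divisor bound
  obtain ⟨C1, hC1, hdiv⟩ := Pool.Agent.Helper112.divisor_bound (ε / 12) (by positivity)
  set D : ℝ := max C1 1 * (12 * (mx M : ℝ) ^ 3) ^ (ε / 12) with hD
  have hmx : (1 : ℝ) ≤ mx M := by
    have : 1 ≤ mx M := Nat.le_add_right _ _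
    exact_mod_cast this
  have hmx3 : (1 : ℝ) ≤ 12 * (mx M : ℝ) ^ 3 := by
    have := one_le_pow₀ hmx (n := 3)
    linarith
  have hD1 : 1 ≤ D := by
    have h1 : (1 : ℝ) ≤ (12 * (mx M : ℝ) ^ 3) ^ (ε / 12) :=
      Real.one_le_rpow hmx3 (by positivity)
    have h2 : (1 : ℝ) ≤ max C1 1 := le_max_right _ _
    rw [hD]
    nlinarith
  refine ⟨D ^ 2 * (297 + 40 * K * C3 * (1 + 2 / ε)), by positivity, ?_⟩
  intro A B hA hB hAB
  have hA1 : (1 : ℝ) ≤ A := by exact_mod_cast hA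
  have hB1 : (1 : ℝ) ≤ B := by exact_mod_cast hB
  have hAB' : (A : ℝ) ≤ B := by exact_mod_cast hAB
  set τ : ℝ := D * (A : ℝ) ^ (ε / 4) with hτ
  have hA4 : (1 : ℝ) ≤ (A : ℝ) ^ (ε / 4) := Real.one_le_rpow hA1 (by positivity)
  have hτ1 : 1 ≤ τ := by
    rw [hτ]
    nlinarith
  have hτd : ∀ t : Fin 3 → ℤ, ht t ≤ A → (gm M t).det ≠ 0 →
      ((Nat.divisors (2 * (gm M t).det.natAbs)).card : ℝ) ≤ τ := by
    intro t htA hdet
    have hpos : 1 ≤ (gm M t).det.natAbs := Nat.one_le_iff_ne_zero.2 (Int.natAbs_ne_zero.2 hdet)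
    refine (hdiv _ (by omega)).trans ?_
    have h4 := det_le M htA
    have h5 : ((2 * (gm M t).det.natAbs : ℕ) : ℝ) ≤ 12 * (mx M : ℝ) ^ 3 * (A : ℝ) ^ 3 := by
      have h6 : 2 * (gm M t).det.natAbs ≤ 12 * mx M ^ 3 * A ^ 3 := by
        calc 2 * (gm M t).det.natAbs ≤ 2 * (6 * (mx M * A) ^ 3) := Nat.mul_le_mul_left _ h4
          _ = 12 * mx M ^ 3 * A ^ 3 := by ring
      exact_mod_cast h6
    calc C1 * ((2 * (gm M t).det.natAbs : ℕ) : ℝ) ^ (ε / 12)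
        ≤ max C1 1 * (12 * (mx M : ℝ) ^ 3 * (A : ℝ) ^ 3) ^ (ε / 12) := by
          have h7 : ((2 * (gm M t).det.natAbs : ℕ) : ℝ) ^ (ε / 12) ≤
              (12 * (mx M : ℝ) ^ 3 * (A : ℝ) ^ 3) ^ (ε / 12) :=
            Real.rpow_le_rpow (Nat.cast_nonneg _) h5 (by positivity)
          exact mul_le_mul (le_max_left _ _) h7 (by positivity) (by positivity)
      _ = τ := by
          rw [Real.mul_rpow (by positivity) (by positivity), ← Real.rpow_natCast (A : ℝ) 3,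
            ← Real.rpow_mul (by positivity), hτ, hD, mul_assoc]
          congr 3
          push_cast
          ring
  -- the parameters
  set T := (bx 3 A).filter fun t => Rep t ∧ (gm M t).det ≠ 0 with hTd
  have hsub : PP M A B ⊆ T.biUnion fun t =>
      ((bx 3 B).filter fun x => Rep x ∧ qf (gm M t) x = 0).image fun x => (t, x) := by
    rintro ⟨t, x⟩ hx
    unfold PP at hx
    rw [mem_filter, mem_product] at hx
    obtain ⟨⟨e1, e2⟩, e3, e4, e5, e6⟩ := hx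
    rw [mem_biUnion]
    refine ⟨t, ?_, ?_⟩
    · rw [hTd, mem_filter]
      exact ⟨e1, e3, e6⟩
    · rw [mem_image]
      exact ⟨x, by rw [mem_filter]; exact ⟨e2, e4, e5⟩, rfl⟩
  have hone : ∀ t ∈ T, ((((bx 3 B).filter fun x => Rep x ∧ qf (gm M t) x = 0).card : ℕ) : ℝ) ≤
      τ ^ 2 * (11 + 40 * K * B * (1 / (((gm M t).det.natAbs : ℝ) ^ ((1 : ℝ) / 3)))) := by
    intro t ht'
    rw [hTd, mem_filter, mem_bx] at ht'
    obtain ⟨e1, e2, e3⟩ := ht'
    have h4 := h1 K (gm M t) hK1 (gm_symm hM t) e3 (hK' t e2) B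
      ((bx 3 B).filter fun x => Rep x ∧ qf (gm M t) x = 0) hB (fun x hx => by
        rw [mem_filter, mem_bx] at hx
        exact ⟨hx.2.1, hx.1, hx.2.2⟩)
    refine h4.trans ?_
    have h5 := hτd t e1 e3
    have h6 : (0 : ℝ) ≤ 40 * (K * B) / (((gm M t).det.natAbs : ℝ) ^ ((1 : ℝ) / 3)) := by positivity
    have h7 : ((Nat.divisors (2 * (gm M t).det.natAbs)).card : ℝ) ^ 2 ≤ τ ^ 2 := by gcongr
    have h8 : 1 ≤ τ ^ 2 := one_le_pow₀ hτ1
    calc (1 : ℝ) + ((Nat.divisors (2 * (gm M t).det.natAbs)).card : ℝ) ^ 2 *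
          (10 + 40 * (K * B) / (((gm M t).det.natAbs : ℝ) ^ ((1 : ℝ) / 3)))
        ≤ τ ^ 2 * 1 + τ ^ 2 *
          (10 + 40 * (K * B) / (((gm M t).det.natAbs : ℝ) ^ ((1 : ℝ) / 3))) := by
          have h9 := mul_le_mul_of_nonneg_right h7
            (by positivity : (0 : ℝ) ≤ 10 + 40 * (K * B) /
              (((gm M t).det.natAbs : ℝ) ^ ((1 : ℝ) / 3)))
          linarith
      _ = τ ^ 2 * (11 + 40 * K * B * (1 / (((gm M t).det.natAbs : ℝ) ^ ((1 : ℝ) / 3)))) := by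
          ring
  have hTc : (T.card : ℝ) ≤ 27 * (A : ℝ) ^ 3 := by
    have h4 := card_bx_le 3 hA
    have h5 : (T.card : ℝ) ≤ ((bx 3 A).card : ℝ) := by
      exact_mod_cast Finset.card_le_card (Finset.filter_subset _ _)
    calc (T.card : ℝ) ≤ (3 * (A : ℝ)) ^ 3 := h5.trans h4
      _ = 27 * (A : ℝ) ^ 3 := by ring
  have hTs : ∑ t ∈ T, (1 / (((gm M t).det.natAbs : ℝ) ^ ((1 : ℝ) / 3))) ≤
      C3 * (A : ℝ) ^ 2 * (1 + Real.log A) := by
    refine le_trans ?_ (hsum A hA)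
    have h4 : ∀ t, MvPolynomial.eval t (gp M).det = (gm M t).det := eval_det M
    simp only [h4]
    refine Finset.sum_le_sum_of_subset_of_nonneg ?_ fun t _ _ => by positivity
    intro t ht'
    rw [hTd, mem_filter] at ht'
    rw [mem_filter]
    exact ⟨ht'.1, ht'.2.2⟩
  have hlog : 1 + Real.log A ≤ (1 + 2 / ε) * (A : ℝ) ^ (ε / 2) := by
    have h4 : Real.log A ≤ (A : ℝ) ^ (ε / 2) / (ε / 2) :=
      Real.log_le_rpow_div (by positivity) (by positivity)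
    have h5 : (1 : ℝ) ≤ (A : ℝ) ^ (ε / 2) := Real.one_le_rpow hA1 (by positivity)
    have h6 : (A : ℝ) ^ (ε / 2) / (ε / 2) = 2 / ε * (A : ℝ) ^ (ε / 2) := by
      field_simp
    rw [h6] at h4
    linarith
  have hA2 : (1 : ℝ) ≤ (A : ℝ) ^ (ε / 2) := Real.one_le_rpow hA1 (by positivity)
  have hτsq : τ ^ 2 = D ^ 2 * (A : ℝ) ^ (ε / 2) := by
    rw [hτ, mul_pow, ← Real.rpow_natCast ((A : ℝ) ^ (ε / 4)) 2, ← Real.rpow_mul (by positivity)]
    congr 2
    push_cast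
    ring
  calc ((PP M A B).card : ℝ)
      ≤ ((T.biUnion fun t => ((bx 3 B).filter fun x => Rep x ∧ qf (gm M t) x = 0).image
          fun x => (t, x)).card : ℝ) := by exact_mod_cast Finset.card_le_card hsub
    _ ≤ ∑ t ∈ T, ((((bx 3 B).filter fun x => Rep x ∧ qf (gm M t) x = 0).card : ℕ) : ℝ) := by
        have e1 := Finset.card_biUnion_le (s := T) (t := fun t =>
          ((bx 3 B).filter fun x => Rep x ∧ qf (gm M t) x = 0).image fun x => (t, x))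
        have e2 := e1.trans (Finset.sum_le_sum fun x _ => Finset.card_image_le)
        exact_mod_cast e2
    _ ≤ ∑ t ∈ T, τ ^ 2 *
          (11 + 40 * K * B * (1 / (((gm M t).det.natAbs : ℝ) ^ ((1 : ℝ) / 3)))) :=
        Finset.sum_le_sum hone
    _ = τ ^ 2 * (11 * T.card + 40 * K * B *
          ∑ t ∈ T, (1 / (((gm M t).det.natAbs : ℝ) ^ ((1 : ℝ) / 3)))) := by
        rw [← Finset.mul_sum, Finset.sum_add_distrib, Finset.sum_const, ← Finset.mul_sum,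
          nsmul_eq_mul]
        ring
    _ ≤ τ ^ 2 * (11 * (27 * (A : ℝ) ^ 3) + 40 * K * B *
          (C3 * (A : ℝ) ^ 2 * ((1 + 2 / ε) * (A : ℝ) ^ (ε / 2)))) := by
        have e1 : ∑ t ∈ T, (1 / (((gm M t).det.natAbs : ℝ) ^ ((1 : ℝ) / 3))) ≤
            C3 * (A : ℝ) ^ 2 * ((1 + 2 / ε) * (A : ℝ) ^ (ε / 2)) :=
          hTs.trans (mul_le_mul_of_nonneg_left hlog (by positivity))
        gcongr
    _ ≤ τ ^ 2 * (297 * ((A : ℝ) ^ 2 * B) * (A : ℝ) ^ (ε / 2) + 40 * K * B *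
          (C3 * (A : ℝ) ^ 2 * ((1 + 2 / ε) * (A : ℝ) ^ (ε / 2)))) := by
        have e1 : 11 * (27 * (A : ℝ) ^ 3) ≤ 297 * ((A : ℝ) ^ 2 * B) * (A : ℝ) ^ (ε / 2) := by
          have e2 : (A : ℝ) ^ 3 ≤ (A : ℝ) ^ 2 * B := by
            rw [pow_succ]
            exact mul_le_mul_of_nonneg_left hAB' (by positivity)
          have e3 : (A : ℝ) ^ 2 * B ≤ (A : ℝ) ^ 2 * B * (A : ℝ) ^ (ε / 2) :=
            le_mul_of_one_le_right (by positivity) hA2
          nlinarith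
        gcongr
    _ = D ^ 2 * (297 + 40 * K * C3 * (1 + 2 / ε)) * ((A : ℝ) ^ 2 * B) *
          ((A : ℝ) ^ (ε / 2) * (A : ℝ) ^ (ε / 2)) := by
        rw [hτsq]
        ring
    _ = D ^ 2 * (297 + 40 * K * C3 * (1 + 2 / ε)) * ((A : ℝ) ^ 2 * B) * (A : ℝ) ^ ε := by
        rw [← Real.rpow_add (by positivity)]
        congr 2
        ring
    _ ≤ D ^ 2 * (297 + 40 * K * C3 * (1 + 2 / ε)) * ((A : ℝ) ^ 2 * B) * ((A : ℝ) * B) ^ ε := by
        have e1 : (A : ℝ) ^ ε ≤ ((A : ℝ) * B) ^ ε :=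
          Real.rpow_le_rpow (by positivity) (le_mul_of_one_le_right (by positivity) hB1) hε.le
        exact mul_le_mul_of_nonneg_left e1 (by positivity)

/-- part BOX -/
theorem box_ (h1 : S_CON) (h2 : S_SUM) (h3 : S_NST) (h4 : S_LAT) : S_BOX := by
  intro M hM hc hN hT ε hε
  obtain ⟨C, hC, hle⟩ := box_le h1 h2 h3 M hM hN hT ε hε
  obtain ⟨C', hC', hlat⟩ := h4 M hc
  refine ⟨C + 2 * C', by positivity, fun A B hA hB => ?_⟩
  have hA1 : (1 : ℝ) ≤ A := by exact_mod_cast hA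
  have hB1 : (1 : ℝ) ≤ B := by exact_mod_cast hB
  have hX : 0 ≤ ((A : ℝ) ^ 2 * B) * ((A : ℝ) * B) ^ ε := by positivity
  rcases le_total A B with hAB | hAB
  · refine (hle A B hA hB hAB).trans ?_
    calc C * ((A : ℝ) ^ 2 * B) * ((A : ℝ) * B) ^ ε
        = C * (((A : ℝ) ^ 2 * B) * ((A : ℝ) * B) ^ ε) := by ring
      _ ≤ (C + 2 * C') * (((A : ℝ) ^ 2 * B) * ((A : ℝ) * B) ^ ε) :=
          mul_le_mul_of_nonneg_right (by linarith) hX
      _ = _ := by ring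
  · refine (hlat A B hA hB).trans ?_
    have hBA : (B : ℝ) ≤ A := by exact_mod_cast hAB
    have e1 : (B : ℝ) ^ 3 ≤ (A : ℝ) ^ 2 * B := by
      rw [pow_succ]
      gcongr
    have e2 : (1 : ℝ) ≤ ((A : ℝ) * B) ^ ε :=
      Real.one_le_rpow (one_le_mul_of_one_le_of_one_le hA1 hB1) hε.le
    have e3 : (A : ℝ) ^ 2 * B ≤ ((A : ℝ) ^ 2 * B) * ((A : ℝ) * B) ^ ε :=
      le_mul_of_one_le_right (by positivity) e2
    calc C' * ((B : ℝ) ^ 3 + (A : ℝ) ^ 2 * B) ≤ C' * (2 * ((A : ℝ) ^ 2 * B)) := by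
          gcongr
          linarith
      _ ≤ 2 * C' * (((A : ℝ) ^ 2 * B) * ((A : ℝ) * B) ^ ε) := by
          have := mul_le_mul_of_nonneg_left e3 (by positivity : 0 ≤ 2 * C')
          linarith
      _ ≤ (C + 2 * C') * (((A : ℝ) ^ 2 * B) * ((A : ℝ) * B) ^ ε) :=
          mul_le_mul_of_nonneg_right (by linarith) hX
      _ = _ := by ring

end Pool.Agent.R38.NC
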