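import Mathlib
import Pool.Agent.R38.NC.Stm

/-!
# Project NC, part CON (helper38): the number of rational points of bounded height on a conic
-/

set_option autoImplicit false

namespace Pool.Agent.R38.NC

open Matrix Finset
open Pool.Agent.H548.WM (ht bx Rep le_ht')

theorem rep_prim {n : ℕ} {v : Fin n → ℤ} (h : Rep v) : Prim v := by
  intro d hd
  have h1 : d ∣ Finset.univ.gcd v := Finset.dvd_gcd fun i _ => hd i
  rw [h.1] at h1
  exact isUnit_of_dvd_one h1

/-- normalised vectors are determined up to sign -/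
theorem rep_neg {n : ℕ} {v w : Fin n → ℤ} (hv : Rep v) (hw : Rep w) (h : w = -v) : False := by
  obtain ⟨-, i, hi, hi'⟩ := hv
  obtain ⟨-, j, hj, hj'⟩ := hw
  rcases lt_trichotomy i j with h1 | h1 | h1
  · have := hj' i h1
    rw [h, Pi.neg_apply] at this
    omega
  · subst h1
    rw [h, Pi.neg_apply] at hj
    omega
  · have := hi' j h1
    rw [h, Pi.neg_apply, this] at hj
    omega

theorem coprime_prim {s t : ℤ} (h : IsCoprime s t) : Prim (![s, t] : Fin 2 → ℤ) := by
  intro d hd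
  exact h.isUnit_of_dvd' (hd 0) (hd 1)

theorem qf_adapted (M U : Matrix (Fin 3) (Fin 3) ℤ) (y : Fin 3 → ℤ) :
    qf M (U.mulVec y) = qf (Uᵀ * M * U) y := by
  unfold qf
  have e1 : (Uᵀ * M * U).mulVec y = Uᵀ.mulVec (M.mulVec (U.mulVec y)) := by
    rw [Matrix.mulVec_mulVec, Matrix.mulVec_mulVec, Matrix.mul_assoc]
  rw [e1, Matrix.dotProduct_mulVec y Uᵀ, Matrix.vecMul_transpose]

theorem det_rows (x y : Fin 3 → Fin 3 → ℤ) (U : Matrix (Fin 3) (Fin 3) ℤ)
    (h : ∀ i, x i = U.mulVec (y i)) :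
    (Matrix.of x).det = (Matrix.of y).det * U.det := by
  have : Matrix.of x = Matrix.of y * Uᵀ := by
    ext i j
    rw [Matrix.of_apply, h i, Matrix.mul_apply]
    simp only [Matrix.mulVec, dotProduct, Matrix.of_apply, Matrix.transpose_apply]
    exact Finset.sum_congr rfl fun k _ => mul_comm _ _
  rw [this, Matrix.det_mul, Matrix.det_transpose]

theorem det_bound (x : Fin 3 → Fin 3 → ℤ) (X : ℤ) (h : ∀ i j, |x i j| ≤ X) :
    |(Matrix.of x).det| ≤ 6 * X ^ 3 := by
  rw [Matrix.det_fin_three]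
  simp only [Matrix.of_apply]
  have hX : 0 ≤ X := (abs_nonneg _).trans (h 0 0)
  have key : ∀ a b c : ℤ, |a| ≤ X → |b| ≤ X → |c| ≤ X → |a * b * c| ≤ X ^ 3 := by
    intro a b c ha hb hc
    rw [abs_mul, abs_mul]
    calc |a| * |b| * |c| ≤ X * X * X := by gcongr
      _ = X ^ 3 := by ring
  have e1 := key _ _ _ (h 0 0) (h 1 1) (h 2 2)
  have e2 := key _ _ _ (h 0 0) (h 1 2) (h 2 1)
  have e3 := key _ _ _ (h 0 1) (h 1 0) (h 2 2)
  have e4 := key _ _ _ (h 0 1) (h 1 2) (h 2 0)
  have e5 := key _ _ _ (h 0 2) (h 1 0) (h 2 1)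
  have e6 := key _ _ _ (h 0 2) (h 1 1) (h 2 0)
  rw [abs_le] at *
  constructor <;>
    linarith [e1.1, e1.2, e2.1, e2.2, e3.1, e3.2, e4.1, e4.2, e5.1, e5.2, e6.1, e6.2]

/-- the determinant of three zeros -/
theorem det_param (a b c g : ℤ) (s t β : Fin 3 → ℤ) (y : Fin 3 → Fin 3 → ℤ)
    (h0 : ∀ i, β i * y i 0 = -(2 * g * t i) * s i) (h1 : ∀ i, β i * y i 1 = -(2 * g * t i) * t i)
    (h2 : ∀ i, β i * y i 2 = a * s i ^ 2 + 2 * b * s i * t i + c * t i ^ 2) :
    β 0 * β 1 * β 2 * (Matrix.of y).det = -(4 * a * g ^ 2) *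
      ((s 0 * t 1 - s 1 * t 0) * (s 1 * t 2 - s 2 * t 1) * (s 2 * t 0 - s 0 * t 2)) := by
  rw [Matrix.det_fin_three]
  simp only [Matrix.of_apply]
  have e : β 0 * β 1 * β 2 * (y 0 0 * y 1 1 * y 2 2 - y 0 0 * y 1 2 * y 2 1 -
      y 0 1 * y 1 0 * y 2 2 + y 0 1 * y 1 2 * y 2 0 + y 0 2 * y 1 0 * y 2 1 -
      y 0 2 * y 1 1 * y 2 0)
    = (β 0 * y 0 0) * (β 1 * y 1 1) * (β 2 * y 2 2) - (β 0 * y 0 0) * (β 1 * y 1 2) * (β 2 * y 2 1)
      - (β 0 * y 0 1) * (β 1 * y 1 0) * (β 2 * y 2 2) + (β 0 * y 0 1) * (β 1 * y 1 2) * (β 2 * y 2 0)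
      + (β 0 * y 0 2) * (β 1 * y 1 0) * (β 2 * y 2 1)
      - (β 0 * y 0 2) * (β 1 * y 1 1) * (β 2 * y 2 0) := by ring
  rw [e, h0, h0, h0, h1, h1, h1, h2, h2, h2]
  ring

/-- **One class.** -/
theorem one_class (hT : S_TRI) (hD : S_DVD) (a b c g : ℤ) (K h : ℕ) (hK : 1 ≤ K) (ha : a ≠ 0)
    (hg : g ≠ 0) (hh : 1 ≤ h) (hKd : ∀ d : ℤ, d ∣ a * c - b ^ 2 → d ∣ g → d ∣ (K : ℤ))
    (X : ℕ) (U : Matrix (Fin 3) (Fin 3) ℤ) (hU : IsUnit U.det)
    (F : Finset (Fin 3 → ℤ)) (y : (Fin 3 → ℤ) → (Fin 3 → ℤ)) (s t k β : (Fin 3 → ℤ) → ℤ)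
    (s0 t0 : ℤ) (γ : ℕ) (h00 : IsCoprime s0 t0) (h01 : (h : ℤ) ∣ 2 * g * t0)
    (h02 : (h : ℤ) ∣ a * s0 ^ 2 + 2 * b * s0 * t0 + c * t0 ^ 2)
    (hF : ∀ x ∈ F, Rep x ∧ ht x ≤ X ∧ x = U.mulVec (y x) ∧ IsCoprime (s x) (t x) ∧ 0 < k x ∧
      y x 0 = k x * s x ∧ y x 1 = k x * t x ∧ k x * β x = -(2 * g * t x) ∧
      β x * y x 2 = a * s x ^ 2 + 2 * b * s x * t x + c * t x ^ 2 ∧ (β x).natAbs = h ∧
      Int.gcd (Int.gcd h (2 * g)) ((s0 * t x - s x * t0) / ((h : ℤ) / Int.gcd h (2 * g))) = γ) :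
    (F.card : ℝ) ≤ 10 + 40 * (K * X) / (((a * g ^ 2).natAbs : ℝ) ^ ((1 : ℝ) / 3)) := by
  classical
  have hh0 : (h : ℤ) ≠ 0 := by exact_mod_cast (by omega : h ≠ 0)
  have hβ : ∀ x ∈ F, (h : ℤ) ∣ 2 * g * t x ∧
      (h : ℤ) ∣ a * s x ^ 2 + 2 * b * s x * t x + c * t x ^ 2 := by
    intro x hx
    obtain ⟨-, -, -, -, -, -, -, e1, e2, e3, -⟩ := hF x hx
    have e4 : (h : ℤ) ∣ β x := by
      rw [← e3]
      exact Int.natAbs_dvd.2 dvd_rfl
    constructor
    · have : β x ∣ 2 * g * t x := ⟨-k x, by linear_combination e1⟩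
      exact e4.trans this
    · rw [← e2]
      exact e4.trans (dvd_mul_right _ _)
  -- the vectors of the parameters
  set z : (Fin 3 → ℤ) → (Fin 2 → ℤ) := fun x => ![s x, t x] with hz
  have hdvd : ∀ x ∈ F, ∀ x' ∈ F, (h : ℤ) ∣ 4 * (K : ℤ) * (s x * t x' - s x' * t x) := by
    intro x hx x' hx'
    have e := hD a b c g K h hg hh hKd ![s0, s x, s x'] ![t0, t x, t x'] ?_ ?_ ?_ ?_
    · simpa using e
    · intro i
      fin_cases i
      · exact h00
      · exact (hF x hx).2.2.2.1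
      · exact (hF x' hx').2.2.2.1
    · intro i
      fin_cases i
      · exact h01
      · exact (hβ x hx).1
      · exact (hβ x' hx').1
    · intro i
      fin_cases i
      · exact h02
      · exact (hβ x hx).2
      · exact (hβ x' hx').2
    · have e1 := (hF x hx).2.2.2.2.2.2.2.2.2.2
      have e2 := (hF x' hx').2.2.2.2.2.2.2.2.2.2
      simpa using e1.trans e2.symm
  -- equal up to sign
  have hsame : ∀ x ∈ F, ∀ x' ∈ F, s x * t x' - s x' * t x = 0 → x = x' := by
    intro x hx x' hx' h0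
    obtain ⟨r1, -, u1, c1, k1, y10, y11, b1, w1, n1, -⟩ := hF x hx
    obtain ⟨r2, -, u2, c2, k2, y20, y21, b2, w2, n2, -⟩ := hF x' hx'
    -- `(s x', t x') = ε (s x, t x)`
    obtain ⟨p, q, hpq⟩ := c1
    obtain ⟨p', q', hpq'⟩ := c2
    set l : ℤ := p * s x' + q * t x' with hl
    have hs : s x' = l * s x := by
      rw [hl]
      linear_combination (-s x') * hpq + (-q) * h0
    have ht' : t x' = l * t x := by
      rw [hl]
      linear_combination (-t x') * hpq + p * h0
    have hlu : l ∣ 1 := by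
      rw [← hpq', hs, ht']
      exact ⟨p' * s x + q' * t x, by ring⟩
    have hb0 : β x ≠ 0 := by
      intro h1
      rw [h1] at n1
      simp at n1
      omega
    rcases Int.isUnit_iff.1 (isUnit_of_dvd_one hlu) with h1 | h1
    · rw [h1, one_mul] at hs ht'
      have hkb : k x' * β x' = k x * β x := by rw [b1, b2, ht']
      have hkk : k x' = k x := by
        have e1 : (k x').natAbs * h = (k x).natAbs * h := by
          rw [← n1]
          nth_rw 1 [n1, ← n2]
          rw [← Int.natAbs_mul, ← Int.natAbs_mul, hkb]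
        have e2 := Nat.eq_of_mul_eq_mul_right (by omega) e1
        omega
      have hbb : β x' = β x := by
        rw [hkk] at hkb
        exact mul_left_cancel₀ (by omega) hkb
      have hyy : y x = y x' := by
        funext i
        fin_cases i
        · simp only [Fin.zero_eta]
          rw [y10, y20, hkk, hs]
        · simp only [Fin.mk_one]
          rw [y11, y21, hkk, ht']
        · simp only [Fin.reduceFinMk]
          apply mul_left_cancel₀ hb0
          rw [w1, ← hbb, w2, hs, ht']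
      rw [u1, u2, hyy]
    · exfalso
      rw [h1] at hs ht'
      have hkb : k x' * β x' = -(k x * β x) := by rw [b1, b2, ht']; ring
      have hkk : k x' = k x := by
        have e1 : (k x').natAbs * h = (k x).natAbs * h := by
          rw [← n1]
          nth_rw 1 [n1, ← n2]
          rw [← Int.natAbs_mul, ← Int.natAbs_mul, hkb, Int.natAbs_neg]
        have e2 := Nat.eq_of_mul_eq_mul_right (by omega) e1
        omega
      have hbb : β x' = -β x := by
        rw [hkk] at hkb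
        have : k x * β x' = k x * (-β x) := by rw [hkb]; ring
        exact mul_left_cancel₀ (by omega) this
      have hyy : y x' = -y x := by
        funext i
        fin_cases i
        · simp only [Fin.zero_eta, Pi.neg_apply]
          rw [y10, y20, hkk, hs]
          ring
        · simp only [Fin.mk_one, Pi.neg_apply]
          rw [y11, y21, hkk, ht']
          ring
        · simp only [Fin.reduceFinMk, Pi.neg_apply]
          apply mul_left_cancel₀ hb0
          have e1 : β x * y x' 2 = -(β x' * y x' 2) := by rw [hbb]; ring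
          rw [e1, w2, hs, ht', mul_neg, w1]
          ring
      exact rep_neg r1 r2 (by rw [u2, hyy, Matrix.mulVec_neg, ← u1])
  have hinj : Set.InjOn z F := by
    intro x hx x' hx' h0
    apply hsame x hx x' hx'
    have e1 : s x = s x' := congrFun h0 0
    have e2 : t x = t x' := congrFun h0 1
    rw [e1, e2]
    ring
  set T := F.image z with hTdef
  have hcard : T.card = F.card := Finset.card_image_of_injOn hinj
  -- the brackets
  set N : (Fin 2 → ℤ) → (Fin 2 → ℤ) → ℤ := fun u v =>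
    4 * (K : ℤ) * (u 0 * v 1 - v 0 * u 1) / (h : ℤ) with hN
  have hNd : ∀ u ∈ T, ∀ v ∈ T, (h : ℤ) * N u v = 4 * (K : ℤ) * (u 0 * v 1 - v 0 * u 1) := by
    intro u hu v hv
    obtain ⟨x, hx, rfl⟩ := Finset.mem_image.1 hu
    obtain ⟨x', hx', rfl⟩ := Finset.mem_image.1 hv
    exact Int.mul_ediv_cancel' (hdvd x hx x' hx')
  have hres := (hT 2 T N ?_ ?_ ?_ ?_).2 (1 + 5 * (K * X) /
    (((a * g ^ 2).natAbs : ℝ) ^ ((1 : ℝ) / 3))) ?_ ?_
  · rw [hcard] at hres
    calc (F.card : ℝ) ≤ _ := hres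
      _ = _ := by ring
  · intro v hv
    obtain ⟨x, hx, rfl⟩ := Finset.mem_image.1 hv
    exact coprime_prim (hF x hx).2.2.2.1
  · intro u hu v hv huv h0
    have e := hNd u hu v hv
    rw [h0, mul_zero] at e
    obtain ⟨x, hx, rfl⟩ := Finset.mem_image.1 hu
    obtain ⟨x', hx', rfl⟩ := Finset.mem_image.1 hv
    apply huv
    rw [hsame x hx x' hx' ?_]
    have e1 : (4 * (K : ℤ)) ≠ 0 := by
      have : (K : ℤ) ≠ 0 := by exact_mod_cast (by omega : K ≠ 0)
      positivity
    rcases mul_eq_zero.1 e.symm with e2 | e2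
    · exact absurd e2 e1
    · simpa [hz] using e2
  · intro u hu v hv
    apply mul_left_cancel₀ hh0
    rw [hNd v hv u hu, mul_neg, hNd u hu v hv]
    ring
  · intro u hu v hv w hw i
    apply mul_left_cancel₀ hh0
    have e : (h : ℤ) * (N v w * u i + N w u * v i + N u v * w i) =
        (h * N v w) * u i + (h * N w u) * v i + (h * N u v) * w i := by ring
    rw [e, hNd v hv w hw, hNd w hw u hu, hNd u hu v hv]
    fin_cases i
    · simp only [Fin.zero_eta]; ring
    · simp only [Fin.mk_one]; ring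
  · have : (0 : ℝ) ≤ 5 * (K * X) / (((a * g ^ 2).natAbs : ℝ) ^ ((1 : ℝ) / 3)) := by positivity
    linarith
  · intro u hu v hv w hw
    have e := hNd u hu v hv
    have e' := hNd v hv w hw
    have e'' := hNd w hw u hu
    obtain ⟨x, hx, rfl⟩ := Finset.mem_image.1 hu
    obtain ⟨x', hx', rfl⟩ := Finset.mem_image.1 hv
    obtain ⟨x'', hx'', rfl⟩ := Finset.mem_image.1 hw
    set D : ℝ := ((a * g ^ 2).natAbs : ℝ) with hD'
    have hD1 : 1 ≤ D := by
      rw [hD']
      have : a * g ^ 2 ≠ 0 := mul_ne_zero ha (pow_ne_zero 2 hg)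
      exact_mod_cast Int.natAbs_pos.2 this
    have hDr : 0 < D ^ ((1 : ℝ) / 3) := by positivity
    have hDc : (D ^ ((1 : ℝ) / 3)) ^ 3 = D := by
      rw [← Real.rpow_natCast, ← Real.rpow_mul (by positivity)]
      norm_num
    -- the determinant
    obtain ⟨r1, q1, u1, -, -, y10, y11, b1, w1, n1, -⟩ := hF x hx
    obtain ⟨r2, q2, u2, -, -, y20, y21, b2, w2, n2, -⟩ := hF x' hx'
    obtain ⟨r3, q3, u3, -, -, y30, y31, b3, w3, n3, -⟩ := hF x'' hx''
    have d1 := det_param a b c g ![s x, s x', s x''] ![t x, t x', t x''] ![β x, β x', β x'']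
      ![y x, y x', y x''] ?_ ?_ ?_
    · have d2 := det_rows ![x, x', x''] ![y x, y x', y x''] U (by
        intro i
        fin_cases i
        · exact u1
        · exact u2
        · exact u3)
      have d3 : |(Matrix.of ![x, x', x'']).det| ≤ 6 * (X : ℤ) ^ 3 := by
        refine det_bound _ _ ?_
        intro i j
        have hle : ∀ v : Fin 3 → ℤ, ht v ≤ X → |v j| ≤ (X : ℤ) := fun v hv =>
          (le_ht' v j).trans (by exact_mod_cast hv)
        fin_cases i
        · exact hle x q1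
        · exact hle x' q2
        · exact hle x'' q3
      have d4 : |(Matrix.of ![y x, y x', y x'']).det| ≤ 6 * (X : ℤ) ^ 3 := by
        rw [d2, abs_mul] at d3
        rcases Int.isUnit_iff.1 hU with h1 | h1
        · rw [h1] at d3
          simpa using d3
        · rw [h1] at d3
          simpa using d3
      simp only [Matrix.cons_val_zero, Matrix.cons_val_one, Matrix.cons_val] at d1
      set B : ℤ := (s x * t x' - s x' * t x) * (s x' * t x'' - s x'' * t x') *
        (s x'' * t x - s x * t x'') with hB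
      -- `h^3 |det| = 4 |a g^2| |B|`
      have d5 : (h : ℤ) ^ 3 * |(Matrix.of ![y x, y x', y x'']).det| =
          4 * |a * g ^ 2| * |B| := by
        have e1 : ∀ z : ℤ, z.natAbs = h → |z| = (h : ℤ) := fun z hz => by
          rw [← hz]; exact Int.abs_eq_natAbs z
        have e2 := congrArg abs d1
        rw [abs_mul, abs_mul, abs_mul, e1 _ n1, e1 _ n2, e1 _ n3, abs_mul, abs_neg] at e2
        have e3 : |4 * a * g ^ 2| = 4 * |a * g ^ 2| := by
          rw [mul_assoc, abs_mul]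
          norm_num
        rw [e3] at e2
        rw [← e2]
        ring
      -- `h^3 N N N = (4K)^3 B`
      have d6 : (h : ℤ) ^ 3 * |N (z x) (z x') * N (z x') (z x'') * N (z x'') (z x)| =
          (4 * (K : ℤ)) ^ 3 * |B| := by
        have e1 : (h : ℤ) ^ 3 * (N (z x) (z x') * N (z x') (z x'') * N (z x'') (z x)) =
            (4 * (K : ℤ)) ^ 3 * B := by
          have : (h : ℤ) ^ 3 * (N (z x) (z x') * N (z x') (z x'') * N (z x'') (z x)) =
            (h * N (z x) (z x')) * (h * N (z x') (z x'')) * (h * N (z x'') (z x)) := by ring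
          rw [this, e, e', e'', hB]
          simp only [hz, Matrix.cons_val_zero, Matrix.cons_val_one]
          ring
        have e2 := congrArg abs e1
        rw [abs_mul ((h : ℤ) ^ 3) _, abs_mul ((4 * (K : ℤ)) ^ 3) _,
          abs_of_nonneg (a := (h : ℤ) ^ 3) (by positivity),
          abs_of_nonneg (a := (4 * (K : ℤ)) ^ 3) (by positivity)] at e2
        exact e2
      -- real numbers
      have f1 : (4 : ℝ) * D * (|N (z x) (z x') * N (z x') (z x'') * N (z x'') (z x)| : ℤ) ≤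
          (4 * (K : ℝ)) ^ 3 * (6 * (X : ℝ) ^ 3) := by
        have g1 : (h : ℤ) ^ 3 * (4 * |a * g ^ 2| *
            |N (z x) (z x') * N (z x') (z x'') * N (z x'') (z x)|) ≤
            (h : ℤ) ^ 3 * ((4 * (K : ℤ)) ^ 3 * (6 * (X : ℤ) ^ 3)) := by
          calc (h : ℤ) ^ 3 * (4 * |a * g ^ 2| *
                |N (z x) (z x') * N (z x') (z x'') * N (z x'') (z x)|)
              = (4 * |a * g ^ 2|) * ((h : ℤ) ^ 3 *
                |N (z x) (z x') * N (z x') (z x'') * N (z x'') (z x)|) := by ring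
            _ = (4 * (K : ℤ)) ^ 3 * (4 * |a * g ^ 2| * |B|) := by rw [d6]; ring
            _ = (4 * (K : ℤ)) ^ 3 * ((h : ℤ) ^ 3 *
                |(Matrix.of ![y x, y x', y x'']).det|) := by rw [← d5]
            _ ≤ (4 * (K : ℤ)) ^ 3 * ((h : ℤ) ^ 3 * (6 * (X : ℤ) ^ 3)) := by gcongr
            _ = _ := by ring
        have g2 := le_of_mul_le_mul_left g1 (by positivity)
        have g3 : (D : ℝ) = ((|a * g ^ 2| : ℤ) : ℝ) := by
          rw [hD', Int.abs_eq_natAbs]
          simp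
        rw [g3]
        exact_mod_cast g2
      have f2 : ((|N (z x) (z x') * N (z x') (z x'') * N (z x'') (z x)| : ℤ) : ℝ) ≤
          96 * (K * X) ^ 3 / D := by
        rw [le_div_iff₀ (by linarith)]
        nlinarith [f1]
      refine f2.trans ?_
      have f3 : 96 * ((K : ℝ) * X) ^ 3 / D ≤ (5 * (K * X) / (D ^ ((1 : ℝ) / 3))) ^ 3 := by
        rw [div_pow, hDc]
        have : (0 : ℝ) ≤ (K * X) ^ 3 := by positivity
        gcongr
        nlinarith
      refine f3.trans ?_
      have : (0 : ℝ) ≤ 5 * (K * X) / (D ^ ((1 : ℝ) / 3)) := by positivity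
      gcongr
      linarith
    · intro i
      fin_cases i
      · simp only [Fin.zero_eta, Matrix.cons_val_zero]
        rw [y10]
        linear_combination s x * b1
      · simp only [Fin.mk_one, Matrix.cons_val_one, Matrix.cons_val_zero]
        rw [y20]
        linear_combination s x' * b2
      · simp only [Fin.reduceFinMk, Matrix.cons_val]
        rw [y30]
        linear_combination s x'' * b3
    · intro i
      fin_cases i
      · simp only [Fin.zero_eta, Matrix.cons_val_zero]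
        rw [y11]
        linear_combination t x * b1
      · simp only [Fin.mk_one, Matrix.cons_val_one, Matrix.cons_val_zero]
        rw [y21]
        linear_combination t x' * b2
      · simp only [Fin.reduceFinMk, Matrix.cons_val]
        rw [y31]
        linear_combination t x'' * b3
    · intro i
      fin_cases i
      · exact w1
      · exact w2
      · exact w3

/-- the adjugate in other coordinates -/
theorem adj_dvd (M U V : Matrix (Fin 3) (Fin 3) ℤ) (hUV : U * V = 1) (d : ℤ)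
    (h : ∀ i j, d ∣ (Uᵀ * M * U).adjugate i j) (i j : Fin 3) : d ∣ M.adjugate i j := by
  choose f hf using h
  have e1 : (Uᵀ * M * U).adjugate = d • (Matrix.of f) := by
    ext i j
    rw [hf i j, Matrix.smul_apply, Matrix.of_apply, smul_eq_mul]
  have e3 : Vᵀ * Uᵀ = 1 := by
    rw [← Matrix.transpose_mul, hUV, Matrix.transpose_one]
  have e2 : M = Vᵀ * (Uᵀ * M * U) * V := by
    calc M = (Vᵀ * Uᵀ) * M * (U * V) := by rw [e3, hUV, Matrix.one_mul, Matrix.mul_one]
      _ = _ := by simp only [Matrix.mul_assoc]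
  have e4 : M.adjugate = d • (V.adjugate * (Matrix.of f * Vᵀ.adjugate)) := by
    calc M.adjugate = (Vᵀ * (Uᵀ * M * U) * V).adjugate := by rw [← e2]
      _ = V.adjugate * ((Uᵀ * M * U).adjugate * Vᵀ.adjugate) := by
          rw [Matrix.adjugate_mul_distrib, Matrix.adjugate_mul_distrib]
      _ = _ := by rw [e1, Matrix.smul_mul, Matrix.mul_smul]
  rw [e4, Matrix.smul_apply, smul_eq_mul]
  exact dvd_mul_right _ _

/-- **Part CON.** -/
theorem con_ (hT : S_TRI) (hB : S_BAS) (hP : S_PAR) (hD : S_DVD) : S_CON := by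
  classical
  intro K M hK hM hdet hKd X S hX hS
  have hR : (0 : ℝ) ≤ ((Nat.divisors (2 * M.det.natAbs)).card : ℝ) ^ 2 *
      (10 + 40 * (K * X) / ((M.det.natAbs : ℝ) ^ ((1 : ℝ) / 3))) := by positivity
  rcases S.eq_empty_or_nonempty with h0 | ⟨x0, hx0⟩
  · rw [h0, Finset.card_empty, Nat.cast_zero]
    linarith
  obtain ⟨r0, q0, z0⟩ := hS x0 hx0
  obtain ⟨U, hU, hU2, hU02⟩ := hB M hM hdet x0 (rep_prim r0) z0
  have hUV : U * U⁻¹ = 1 := Matrix.mul_nonsing_inv U hU
  obtain ⟨G, hG⟩ : ∃ G, G = Uᵀ * M * U := ⟨_, rfl⟩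
  rw [← hG] at hU02
  have hGs : G.IsSymm := by
    rw [hG]
    unfold Matrix.IsSymm
    rw [Matrix.transpose_mul, Matrix.transpose_mul, Matrix.transpose_transpose, hM.eq,
      Matrix.mul_assoc]
  have hqf0 : ∀ y, qf M (U.mulVec y) = qf G y := fun y => by rw [hG]; exact qf_adapted M U y
  have hx0U : x0 = U.mulVec ![0, 0, 1] := by
    funext i
    rw [← hU2 i]
    simp [Matrix.mulVec, dotProduct, Fin.sum_univ_three]
  have hG22 : G 2 2 = 0 := by
    have e := hqf0 ![0, 0, 1]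
    rw [← hx0U, z0] at e
    simpa [qf, Matrix.mulVec, dotProduct, Fin.sum_univ_three] using e.symm
  have hG20 : G 2 0 = 0 := by rw [← hU02]; exact hGs.apply 0 2
  have hG10 : G 1 0 = G 0 1 := hGs.apply 0 1
  have hG21 : G 2 1 = G 1 2 := hGs.apply 1 2
  obtain ⟨a, ha'⟩ : ∃ a, a = G 0 0 := ⟨_, rfl⟩
  obtain ⟨b, hb'⟩ : ∃ b, b = G 0 1 := ⟨_, rfl⟩
  obtain ⟨c, hc'⟩ : ∃ c, c = G 1 1 := ⟨_, rfl⟩
  obtain ⟨g, hg'⟩ : ∃ g, g = G 1 2 := ⟨_, rfl⟩
  have hqf : ∀ y : Fin 3 → ℤ, qf G y =
      a * y 0 ^ 2 + 2 * b * y 0 * y 1 + c * y 1 ^ 2 + 2 * g * y 1 * y 2 := by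
    intro y
    simp only [qf, Matrix.mulVec, dotProduct, Fin.sum_univ_three, hU02, hG22, hG20, hG10, hG21,
      ha', hb', hc', hg']
    ring
  have hdetG : G.det = -(a * g ^ 2) := by
    rw [Matrix.det_fin_three, hU02, hG22, hG20, hG10, hG21, ha', hg']
    ring
  have hdetM : M.det.natAbs = (a * g ^ 2).natAbs := by
    have e1 : G.det = U.det * M.det * U.det := by
      rw [hG, Matrix.det_mul, Matrix.det_mul, Matrix.det_transpose]
    have e2 : G.det = M.det := by
      rw [e1]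
      rcases Int.isUnit_iff.1 hU with h1 | h1
      · rw [h1]; ring
      · rw [h1]; ring
    rw [← e2, hdetG, Int.natAbs_neg]
  have hag : a * g ^ 2 ≠ 0 := by
    intro h1
    rw [h1, Int.natAbs_zero] at hdetM
    exact hdet (Int.natAbs_eq_zero.1 hdetM)
  have ha : a ≠ 0 := left_ne_zero_of_mul hag
  have hg : g ≠ 0 := fun h1 => hag (by rw [h1]; ring)
  have hKd' : ∀ d : ℤ, d ∣ a * c - b ^ 2 → d ∣ g → d ∣ (K : ℤ) := by
    intro d h1 h2
    refine hKd d (adj_dvd M U U⁻¹ hUV d ?_)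
    rw [← hG]
    have e : G.adjugate = !![-(g * g), 0, b * g; 0, 0, -(a * g); b * g, -(a * g),
        a * c - b ^ 2] := by
      rw [Matrix.adjugate_fin_three]
      ext i j
      fin_cases i <;> fin_cases j <;>
        simp [hU02, hG22, hG20, hG10, hG21, ← ha', ← hb', ← hc', ← hg'] <;> ring
    rw [e]
    intro i j
    fin_cases i <;> fin_cases j
    · exact (dvd_neg.2 (h2.mul_right _))
    · exact dvd_zero _
    · exact h2.mul_left _
    · exact dvd_zero _
    · exact dvd_zero _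
    · exact (dvd_neg.2 (h2.mul_left _))
    · exact h2.mul_left _
    · exact (dvd_neg.2 (h2.mul_left _))
    · exact h1
  -- adapted coordinates
  obtain ⟨y, hy⟩ : ∃ y : (Fin 3 → ℤ) → (Fin 3 → ℤ), ∀ x, x = U.mulVec (y x) :=
    ⟨fun x => U⁻¹.mulVec x, fun x => by
      rw [Matrix.mulVec_mulVec, hUV, Matrix.one_mulVec]⟩
  have hdata : ∀ x ∈ S.erase x0, ∃ s t k β : ℤ, IsCoprime s t ∧ 0 < k ∧ y x 0 = k * s ∧
      y x 1 = k * t ∧ β ≠ 0 ∧ k * β = -(2 * g * t) ∧
      β * y x 2 = a * s ^ 2 + 2 * b * s * t + c * t ^ 2 := by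
    intro x hx
    obtain ⟨hne, hxS⟩ := Finset.mem_erase.1 hx
    obtain ⟨r1, q1, z1⟩ := hS x hxS
    rw [hy x, hqf0, hqf] at z1
    have hprim : ∀ d : ℤ, d ∣ y x 0 → d ∣ y x 1 → d ∣ y x 2 → IsUnit d := by
      intro d h1 h2 h3
      refine rep_prim r1 d fun i => ?_
      rw [hy x]
      simp only [Matrix.mulVec, dotProduct, Fin.sum_univ_three]
      exact dvd_add (dvd_add (h1.mul_left _) (h2.mul_left _)) (h3.mul_left _)
    have hv : y x 1 ≠ 0 := by
      intro h1
      rw [h1] at z1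
      have h2 : a * y x 0 ^ 2 = 0 := by linear_combination z1
      have h3 : y x 0 = 0 := by
        rcases mul_eq_zero.1 h2 with h4 | h4
        · exact absurd h4 ha
        · exact pow_eq_zero_iff (two_ne_zero) |>.1 h4
      have h4 : IsUnit (y x 2) := hprim _ (by rw [h3]; exact dvd_zero _)
        (by rw [h1]; exact dvd_zero _) dvd_rfl
      have h5 : x = fun i => y x 2 * x0 i := by
        have e : y x = fun i => y x 2 * (![0, 0, 1] : Fin 3 → ℤ) i := by
          funext i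
          fin_cases i
          · simpa using h3
          · simpa using h1
          · simp
        funext i
        rw [hx0U]
        nth_rw 1 [hy x]
        nth_rw 1 [e]
        simp only [Matrix.mulVec, dotProduct, Fin.sum_univ_three]
        ring
      rcases Int.isUnit_iff.1 h4 with h6 | h6
      · apply hne
        rw [h5]
        funext i
        rw [h6, one_mul]
      · refine rep_neg r0 r1 ?_
        rw [h5]
        funext i
        rw [h6, Pi.neg_apply]
        ring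
    obtain ⟨s, t, k, β, e1, e2, e3, e4, e5, e6, e7⟩ :=
      hP a b c g (y x 0) (y x 1) (y x 2) hv hprim hg z1
    exact ⟨s, t, k, β, e1, e2, e3, e4, e5, e6, e7⟩
  choose! s t k β hdat using hdata
  set S' := S.erase x0 with hS'
  -- the classes
  obtain ⟨ref, href⟩ : ∃ ref : ℕ → (Fin 3 → ℤ), ∀ n, (∃ x ∈ S', (β x).natAbs = n) →
      ref n ∈ S' ∧ (β (ref n)).natAbs = n := by
    have : ∀ n : ℕ, ∃ z : Fin 3 → ℤ, (∃ x ∈ S', (β x).natAbs = n) →
        z ∈ S' ∧ (β z).natAbs = n := by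
      intro n
      by_cases h : ∃ x ∈ S', (β x).natAbs = n
      · obtain ⟨x, hx, hn⟩ := h
        exact ⟨x, fun _ => ⟨hx, hn⟩⟩
      · exact ⟨0, fun h' => absurd h' h⟩
    choose ref href using this
    exact ⟨ref, href⟩
  set gam : (Fin 3 → ℤ) → ℕ := fun x => Int.gcd (Int.gcd (β x).natAbs (2 * g))
    ((s (ref (β x).natAbs) * t x - s x * t (ref (β x).natAbs)) /
      (((β x).natAbs : ℤ) / Int.gcd (β x).natAbs (2 * g))) with hgam
  set Dv := Nat.divisors (2 * M.det.natAbs) with hDv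
  have hdvβ : ∀ x ∈ S', β x ∣ 2 * g * t x ∧
      β x ∣ a * s x ^ 2 + 2 * b * s x * t x + c * t x ^ 2 := by
    intro x hx
    obtain ⟨e1, e2, e3, e4, e5, e6, e7⟩ := hdat x hx
    exact ⟨⟨-k x, by linear_combination e6⟩, ⟨y x 2, e7.symm⟩⟩
  have hmaps : ∀ x ∈ S', ((β x).natAbs, gam x) ∈ Dv ×ˢ Dv := by
    intro x hx
    obtain ⟨e1, e2, e3, e4, e5, e6, e7⟩ := hdat x hx
    obtain ⟨h1, h2⟩ := hdvβ x hx
    have h3 : β x ∣ 2 * g * a * s x ^ 2 := by
      have : 2 * g * a * s x ^ 2 = 2 * g * (a * s x ^ 2 + 2 * b * s x * t x + c * t x ^ 2) -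
          (2 * g * t x) * (2 * b * s x + c * t x) := by ring
      rw [this]
      exact dvd_sub (h2.mul_left _) (h1.mul_right _)
    have h4 : β x ∣ 2 * g * a * t x ^ 2 := by
      have : 2 * g * a * t x ^ 2 = (2 * g * t x) * (a * t x) := by ring
      rw [this]
      exact h1.mul_right _
    have h5 : β x ∣ 2 * g * a := by
      obtain ⟨p, q, hpq⟩ := (e1.pow (m := 2) (n := 2))
      have : 2 * g * a = p * (2 * g * a * s x ^ 2) + q * (2 * g * a * t x ^ 2) := by
        linear_combination (-(2 * g * a)) * hpq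
      rw [this]
      exact dvd_add (h3.mul_left _) (h4.mul_left _)
    have h6 : (β x).natAbs ∣ 2 * M.det.natAbs := by
      rw [hdetM]
      have h7 : β x ∣ 2 * (a * g ^ 2) := by
        have : 2 * (a * g ^ 2) = (2 * g * a) * g := by ring
        rw [this]
        exact h5.mul_right _
      have h8 := Int.natAbs_dvd_natAbs.2 h7
      rwa [Int.natAbs_mul] at h8
    have h9 : gam x ∣ (β x).natAbs := by
      have h10 : (gam x : ℤ) ∣ ((Int.gcd (β x).natAbs (2 * g) : ℕ) : ℤ) := Int.gcd_dvd_left ..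
      have h11 : gam x ∣ Int.gcd (β x).natAbs (2 * g) := by exact_mod_cast h10
      have h12 : ((Int.gcd (β x).natAbs (2 * g) : ℕ) : ℤ) ∣ ((β x).natAbs : ℤ) :=
        Int.gcd_dvd_left ..
      exact h11.trans (by exact_mod_cast h12)
    have hne : 2 * M.det.natAbs ≠ 0 := by
      have := Int.natAbs_pos.2 hdet
      omega
    rw [Finset.mem_product]
    exact ⟨Nat.mem_divisors.2 ⟨h6, hne⟩, Nat.mem_divisors.2 ⟨h9.trans h6, hne⟩⟩
  have hfib : ∀ p ∈ Dv ×ˢ Dv, (((S'.filter fun x => ((β x).natAbs, gam x) = p).card : ℕ) : ℝ) ≤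
      10 + 40 * (K * X) / ((M.det.natAbs : ℝ) ^ ((1 : ℝ) / 3)) := by
    rintro ⟨h, γ⟩ -
    set F := S'.filter fun x => ((β x).natAbs, gam x) = (h, γ) with hF
    rcases F.eq_empty_or_nonempty with h1 | ⟨x1, hx1⟩
    · rw [h1, Finset.card_empty, Nat.cast_zero]
      positivity
    obtain ⟨hx1S, hx1h⟩ := Finset.mem_filter.1 hx1
    obtain ⟨hx1h, -⟩ := Prod.mk.inj hx1h
    obtain ⟨hr1, hr2⟩ := href h ⟨x1, hx1S, hx1h⟩
    have hh : 1 ≤ h := by
      rw [← hx1h]
      exact Int.natAbs_pos.2 (hdat x1 hx1S).2.2.2.2.1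
    have hhβ : (h : ℤ) ∣ β (ref h) := by
      rw [← hr2]
      exact Int.natAbs_dvd.2 (by rw [hr2])
    rw [hdetM]
    refine one_class hT hD a b c g K h hK ha hg hh hKd' X U hU F y s t k β (s (ref h))
      (t (ref h)) γ (hdat _ hr1).1 (hhβ.trans (hdvβ _ hr1).1) (hhβ.trans (hdvβ _ hr1).2) ?_
    intro x hx
    obtain ⟨hxS, hxp⟩ := Finset.mem_filter.1 hx
    obtain ⟨hx2, hx3⟩ := Prod.mk.inj hxp
    obtain ⟨e1, e2, e3, e4, e5, e6, e7⟩ := hdat x hxS
    obtain ⟨r1, q1, z1⟩ := hS x (Finset.mem_of_mem_erase hxS)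
    refine ⟨r1, q1, hy x, e1, e2, e3, e4, e6, e7, hx2, ?_⟩
    rw [← hx3, hgam]
    simp only [hx2]
  have hcard : (S'.card : ℝ) ≤ ((Dv.card : ℝ) ^ 2) *
      (10 + 40 * (K * X) / ((M.det.natAbs : ℝ) ^ ((1 : ℝ) / 3))) := by
    rw [Finset.card_eq_sum_card_fiberwise (f := fun x => ((β x).natAbs, gam x))
      (t := Dv ×ˢ Dv) (fun x hx => hmaps x hx)]
    push_cast
    refine (Finset.sum_le_sum hfib).trans ?_
    rw [Finset.sum_const, Finset.card_product, nsmul_eq_mul]
    push_cast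
    rw [sq]
  have hS1 : (S.card : ℝ) = 1 + S'.card := by
    rw [hS', Finset.card_erase_of_mem hx0]
    have : 1 ≤ S.card := Finset.card_pos.2 ⟨x0, hx0⟩
    push_cast [Nat.cast_sub this]
    ring
  rw [hS1]
  linarith

end Pool.Agent.R38.NC
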