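import Pool.Agent.R38.NC.Stm

/-!
Project NC (helper38), part DVD by helper744: divisibility of the brackets within a class.
-/

set_option autoImplicit false

namespace Pool.Agent.R38.NC

/-- `e ∣ n E` implies `e ∣ m E` if `m` and `n` have the same greatest common divisor with `e` -/
lemma dvd_swap {e n m E : ℤ} (hg : Int.gcd e n = Int.gcd e m) (h : e ∣ n * E) : e ∣ m * E := by
  have h1 : e ∣ (Int.gcd e n : ℤ) * E := by
    rw [Int.gcd_eq_gcd_ab, add_mul]
    refine dvd_add ?_ ?_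
    · rw [mul_assoc]
      exact dvd_mul_right _ _
    · rw [show n * Int.gcdB e n * E = Int.gcdB e n * (n * E) by ring]
      exact h.mul_left _
  rw [hg] at h1
  exact h1.trans (mul_dvd_mul_right (Int.gcd_dvd_right _ _) _)

lemma dvd_core (a b c g K e s0 t0 s1 t1 s2 t2 p q : ℤ) (he : e ≠ 0) (he2 : e ∣ 2 * g)
    (hK : ∀ d : ℤ, d ∣ a * c - b ^ 2 → d ∣ g → d ∣ K)
    (H0 : e ∣ a * s0 ^ 2 + 2 * b * s0 * t0 + c * t0 ^ 2)
    (H1 : e ∣ a * s1 ^ 2 + 2 * b * s1 * t1 + c * t1 ^ 2)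
    (H2 : e ∣ a * s2 ^ 2 + 2 * b * s2 * t2 + c * t2 ^ 2)
    (bez : s0 * q - t0 * p = 1)
    (hG : Int.gcd e (s0 * t1 - s1 * t0) = Int.gcd e (s0 * t2 - s2 * t0)) :
    e ∣ 4 * K * (s1 * t2 - s2 * t1) := by
  set B : ℤ := a * s0 * p + b * (s0 * q + t0 * p) + c * t0 * q with hB
  have key : ∀ s t : ℤ, e ∣ a * s ^ 2 + 2 * b * s * t + c * t ^ 2 →
      e ∣ (s0 * t - s * t0) * (2 * (s * q - t * p) * B + (s0 * t - s * t0) *
        (a * p ^ 2 + 2 * b * p * q + c * q ^ 2)) := by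
    intro s t H
    have e1 : s = (s * q - t * p) * s0 + (s0 * t - s * t0) * p := by
      linear_combination (-s) * bez
    have e2 : t = (s * q - t * p) * t0 + (s0 * t - s * t0) * q := by
      linear_combination (-t) * bez
    have e3 : (s0 * t - s * t0) * (2 * (s * q - t * p) * B + (s0 * t - s * t0) *
        (a * p ^ 2 + 2 * b * p * q + c * q ^ 2)) =
        (a * s ^ 2 + 2 * b * s * t + c * t ^ 2) - (s * q - t * p) ^ 2 *
          (a * s0 ^ 2 + 2 * b * s0 * t0 + c * t0 ^ 2) := by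
      have e4 : a * s ^ 2 + 2 * b * s * t + c * t ^ 2 =
          a * ((s * q - t * p) * s0 + (s0 * t - s * t0) * p) ^ 2 +
          2 * b * ((s * q - t * p) * s0 + (s0 * t - s * t0) * p) *
            ((s * q - t * p) * t0 + (s0 * t - s * t0) * q) +
          c * ((s * q - t * p) * t0 + (s0 * t - s * t0) * q) ^ 2 := by
        rw [← e1, ← e2]
      rw [e4, hB]
      ring
    rw [e3]
    exact dvd_sub H (H0.mul_left _)
  have k1 := key s1 t1 H1
  have k2 := key s2 t2 H2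
  have k3 := dvd_swap hG k1
  have k4 := dvd_swap hG.symm k2
  have k5 : e ∣ 2 * B * (s1 * t2 - s2 * t1) := by
    have h := dvd_sub k3 k4
    have e5 : (s1 * t2 - s2 * t1) = (s1 * q - t1 * p) * (s0 * t2 - s2 * t0) -
        (s2 * q - t2 * p) * (s0 * t1 - s1 * t0) := by
      linear_combination (-(s1 * t2 - s2 * t1)) * bez
    rw [e5]
    refine h.trans (dvd_of_eq ?_)
    ring
  -- the common divisor of `e` and `B`
  have hD1 : (Int.gcd e B : ℤ) ∣ e := Int.gcd_dvd_left _ _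
  have hD2 : (Int.gcd e B : ℤ) ∣ B := Int.gcd_dvd_right _ _
  have hDd : (Int.gcd e B : ℤ) ∣ a * c - b ^ 2 := by
    have e6 : a * c - b ^ 2 = (a * s0 ^ 2 + 2 * b * s0 * t0 + c * t0 ^ 2) *
        (a * p ^ 2 + 2 * b * p * q + c * q ^ 2) - B * B := by
      have e7 : a * c - b ^ 2 = (a * c - b ^ 2) * (s0 * q - t0 * p) ^ 2 := by rw [bez]; ring
      rw [e7, hB]
      ring
    rw [e6]
    exact dvd_sub ((hD1.trans H0).mul_right _) (hD2.mul_right _)
  have hD2K : (Int.gcd e B : ℤ) ∣ 2 * K := by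
    have hDg : (Int.gcd e B : ℤ) ∣ 2 * g := hD1.trans he2
    generalize (Int.gcd e B : ℤ) = D at hDd hDg
    rcases Int.even_or_odd' D with ⟨D', h | h⟩
    · subst h
      have h1 : D' ∣ g := (mul_dvd_mul_iff_left two_ne_zero).1 hDg
      exact mul_dvd_mul_left 2 (hK D' ((dvd_mul_left _ _).trans hDd) h1)
    · have h1 : IsCoprime D 2 := ⟨1, -D', by rw [h]; ring⟩
      exact (hK D hDd (h1.dvd_of_dvd_mul_left hDg)).mul_left 2
  have h9 : e ∣ (Int.gcd e B : ℤ) * (2 * (s1 * t2 - s2 * t1)) := by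
    rw [Int.gcd_eq_gcd_ab, add_mul]
    refine dvd_add ?_ ?_
    · rw [mul_assoc]
      exact dvd_mul_right _ _
    · rw [show B * Int.gcdB e B * (2 * (s1 * t2 - s2 * t1)) =
        Int.gcdB e B * (2 * B * (s1 * t2 - s2 * t1)) by ring]
      exact k5.mul_left _
  have h10 := h9.trans (mul_dvd_mul_right hD2K (2 * (s1 * t2 - s2 * t1)))
  refine h10.trans (dvd_of_eq ?_)
  ring

theorem dvd_ : S_DVD := by
  intro a b c g K h hg hh hK s t hcop h1 h2 hG
  set e1 : ℤ := (Int.gcd h (2 * g) : ℤ) with he1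
  have he1pos : 0 < Int.gcd (h : ℤ) (2 * g) := Int.gcd_pos_of_ne_zero_left _ (by positivity)
  have he1ne : e1 ≠ 0 := by rw [he1]; exact_mod_cast he1pos.ne'
  obtain ⟨e2, he2⟩ : e1 ∣ (h : ℤ) := Int.gcd_dvd_left _ _
  obtain ⟨g', hg'⟩ : e1 ∣ 2 * g := Int.gcd_dvd_right _ _
  have hhne : (h : ℤ) ≠ 0 := by positivity
  have he2ne : e2 ≠ 0 := by rintro rfl; rw [mul_zero] at he2; exact hhne he2
  have hdiv : (h : ℤ) / e1 = e2 := by rw [he2]; exact Int.mul_ediv_cancel_left _ he1ne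
  have hcop2 : IsCoprime e2 g' := by
    have h3 := Int.gcd_div_gcd_div_gcd he1pos
    rw [← he1, hdiv, hg', Int.mul_ediv_cancel_left _ he1ne] at h3
    exact Int.isCoprime_iff_gcd_eq_one.2 h3
  have ht : ∀ i, e2 ∣ t i := fun i => by
    have h3 := h1 i
    rw [he2, hg', mul_assoc] at h3
    exact hcop2.dvd_of_dvd_mul_left ((mul_dvd_mul_iff_left he1ne).1 h3)
  choose τ hτ using ht
  have ha : e2 ∣ a := by
    have h3 : e2 ∣ a * s 0 ^ 2 + 2 * b * s 0 * t 0 + c * t 0 ^ 2 :=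
      (Dvd.intro_left _ he2.symm).trans (h2 0)
    have h4 : e2 ∣ a * s 0 ^ 2 := by
      have h5 : a * s 0 ^ 2 = (a * s 0 ^ 2 + 2 * b * s 0 * t 0 + c * t 0 ^ 2) -
        e2 * (τ 0 * (2 * b * s 0 + c * t 0)) := by
        have := hτ 0
        linear_combination (2 * b * s 0 + c * t 0) * (-this)
      rw [h5]
      exact dvd_sub h3 (dvd_mul_right _ _)
    have h6 : IsCoprime e2 (s 0 ^ 2) := by
      have h7 := hcop 0
      rw [hτ 0] at h7
      exact (h7.of_mul_right_left.symm).pow_right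
    exact h6.dvd_of_dvd_mul_right h4
  obtain ⟨a', ha'⟩ := ha
  have hQ : ∀ i, e1 ∣ a' * s i ^ 2 + 2 * b * s i * τ i + (c * e2) * τ i ^ 2 := fun i => by
    have h3 := h2 i
    rw [he2, hτ i, ha', show e2 * a' * s i ^ 2 + 2 * b * s i * (e2 * τ i) + c * (e2 * τ i) ^ 2 =
      (a' * s i ^ 2 + 2 * b * s i * τ i + (c * e2) * τ i ^ 2) * e2 by ring] at h3
    exact (mul_dvd_mul_iff_right he2ne).1 h3
  have hcopτ : IsCoprime (s 0) (τ 0) := by
    have h7 := hcop 0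
    rw [hτ 0] at h7
    exact h7.of_mul_right_right
  obtain ⟨u, v, huv⟩ := hcopτ
  have hbr : ∀ i j, (s i * t j - s j * t i) = e2 * (s i * τ j - s j * τ i) := fun i j => by
    rw [hτ i, hτ j]; ring
  rw [hdiv, hbr 0 1, hbr 0 2, Int.mul_ediv_cancel_left _ he2ne, Int.mul_ediv_cancel_left _ he2ne] at hG
  have hcore := dvd_core a' b (c * e2) g K e1 (s 0) (τ 0) (s 1) (τ 1) (s 2) (τ 2) (-v) u he1ne
    ⟨g', hg'⟩ (fun d hd hdg => hK d (by rw [ha']; refine hd.trans (dvd_of_eq ?_); ring) hdg)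
    (hQ 0) (hQ 1) (hQ 2) (by linear_combination huv) hG
  rw [hbr 1 2, he2, show 4 * (K : ℤ) * (e2 * (s 1 * τ 2 - s 2 * τ 1)) =
    (4 * (K : ℤ) * (s 1 * τ 2 - s 2 * τ 1)) * e2 by ring]
  exact mul_dvd_mul_right hcore e2

end Pool.Agent.R38.NC
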