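import Pool.Agent.R38.NC.Stm

/-!
# Project NC, part GEO: consequences of smoothness
-/

set_option autoImplicit false

namespace Pool.Agent.R38.NC

open Matrix Finset

namespace GeoAux

theorem gm_symm {R : Type*} [CommRing R] (M : Fin 3 → Matrix (Fin 3) (Fin 3) ℤ)
    (hM : ∀ i, (M i).IsSymm) (t : Fin 3 → R) : (gm M t)ᵀ = gm M t := by
  ext j k
  simp only [Matrix.transpose_apply, gm]
  refine Finset.sum_congr rfl fun i _ => ?_
  rw [(hM i).apply j k]

theorem gm_add (M : Fin 3 → Matrix (Fin 3) (Fin 3) ℤ) (t s : Fin 3 → ℂ) (e : ℂ) :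
    gm M (t + e • s) = gm M t + e • gm M s := by
  ext j k
  simp only [gm, Matrix.add_apply, Matrix.smul_apply, Pi.add_apply, Pi.smul_apply, smul_eq_mul,
    Finset.mul_sum, ← Finset.sum_add_distrib]
  refine Finset.sum_congr rfl fun i _ => ?_
  ring

/-- the entries of the adjugate -/
theorem adj_ent (A : Matrix (Fin 3) (Fin 3) ℂ) :
    (A.adjugate 0 0 = A 1 1 * A 2 2 - A 1 2 * A 2 1 ∧
      A.adjugate 0 1 = -(A 0 1 * A 2 2) + A 0 2 * A 2 1 ∧
      A.adjugate 0 2 = A 0 1 * A 1 2 - A 0 2 * A 1 1) ∧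
    (A.adjugate 1 0 = -(A 1 0 * A 2 2) + A 1 2 * A 2 0 ∧
      A.adjugate 1 1 = A 0 0 * A 2 2 - A 0 2 * A 2 0 ∧
      A.adjugate 1 2 = -(A 0 0 * A 1 2) + A 0 2 * A 1 0) ∧
    (A.adjugate 2 0 = A 1 0 * A 2 1 - A 1 1 * A 2 0 ∧
      A.adjugate 2 1 = -(A 0 0 * A 2 1) + A 0 1 * A 2 0 ∧
      A.adjugate 2 2 = A 0 0 * A 1 1 - A 0 1 * A 1 0) := by
  rw [Matrix.adjugate_fin_three]
  refine ⟨⟨rfl, rfl, rfl⟩, ⟨rfl, rfl, rfl⟩, ⟨rfl, rfl, rfl⟩⟩

/-- the coefficients of `det (A + e B)` -/
theorem det_exp (A B : Matrix (Fin 3) (Fin 3) ℂ) (e : ℂ) :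
    (A + e • B).det = A.det + e * (A.adjugate * B).trace + e ^ 2 * (A * B.adjugate).trace +
      e ^ 3 * B.det := by
  obtain ⟨⟨a1, a2, a3⟩, ⟨a4, a5, a6⟩, ⟨a7, a8, a9⟩⟩ := adj_ent A
  obtain ⟨⟨b1, b2, b3⟩, ⟨b4, b5, b6⟩, ⟨b7, b8, b9⟩⟩ := adj_ent B
  simp only [Matrix.det_fin_three, Matrix.trace_fin_three, Matrix.mul_apply, Fin.sum_univ_three,
    Matrix.add_apply, Matrix.smul_apply, smul_eq_mul, a1, a2, a3, a4, a5, a6, a7, a8, a9, b1, b2,
    b3, b4, b5, b6, b7, b8, b9]
  ring

theorem tr_zero (A B : Matrix (Fin 3) (Fin 3) ℂ) (h : ∀ e : ℂ, (A + e • B).det = 0) :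
    (A.adjugate * B).trace = 0 := by
  have h0 := h 0
  have h1 := h 1
  have h2 := h (-1)
  have h3 := h 2
  rw [det_exp] at h0 h1 h2 h3
  linear_combination h1 - (1 / 3 : ℂ) * h2 - (1 / 6 : ℂ) * h3 - (1 / 2 : ℂ) * h0

/-- a symmetric matrix with vanishing adjugate has rank one -/
theorem rank_one (P : Matrix (Fin 3) (Fin 3) ℂ) (hs : Pᵀ = P) (h : P.adjugate = 0) (i j m : Fin 3) :
    P i i * P j m = P j i * P i m := by
  have e01 : P 1 0 = P 0 1 := congrFun (congrFun hs 0) 1
  have e02 : P 2 0 = P 0 2 := congrFun (congrFun hs 0) 2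
  have e12 : P 2 1 = P 1 2 := congrFun (congrFun hs 1) 2
  obtain ⟨⟨b00, b01, b02⟩, ⟨b10, b11, b12⟩, ⟨b20, b21, b22⟩⟩ := adj_ent P
  have a00 := b00.symm.trans (congrFun (congrFun h 0) 0)
  have a01 := b01.symm.trans (congrFun (congrFun h 0) 1)
  have a02 := b02.symm.trans (congrFun (congrFun h 0) 2)
  have a11 := b11.symm.trans (congrFun (congrFun h 1) 1)
  have a12 := b12.symm.trans (congrFun (congrFun h 1) 2)
  have a22 := b22.symm.trans (congrFun (congrFun h 2) 2)
  simp only [e01, e02, e12, Matrix.zero_apply] at a00 a01 a02 a11 a12 a22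
  fin_cases i <;> fin_cases j <;> fin_cases m <;>
    simp only [Fin.zero_eta, Fin.mk_one, Fin.reduceFinMk, e01, e02, e12] <;>
    first
    | ring1
    | linear_combination a00
    | linear_combination a01
    | linear_combination a02
    | linear_combination a11
    | linear_combination a12
    | linear_combination a22
    | linear_combination -a00
    | linear_combination -a01
    | linear_combination -a02
    | linear_combination -a11
    | linear_combination -a12

/-- the generic determinant -/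
noncomputable def PD (M : Fin 3 → Matrix (Fin 3) (Fin 3) ℤ) : MvPolynomial (Fin 3) ℤ :=
  Matrix.det (Matrix.of fun j k => ∑ i, MvPolynomial.X i * MvPolynomial.C (M i j k))

theorem PD_eval {R : Type*} [CommRing R] (M : Fin 3 → Matrix (Fin 3) (Fin 3) ℤ) (t : Fin 3 → R) :
    MvPolynomial.aeval t (PD M) = (gm M t).det := by
  unfold PD
  rw [AlgHom.map_det]
  congr 1
  ext j k
  simp [gm, AlgHom.mapMatrix_apply]

end GeoAux

open GeoAux

theorem geo_ : S_GEO := by
  intro M hM hS hN
  -- (1)
  have h1 : ∀ x : Fin 3 → ℂ, x ≠ 0 → ∃ i, cq M x i ≠ 0 := by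
    intro x hx
    by_contra hc
    push Not at hc
    set B : Matrix (Fin 3) (Fin 3) ℂ := fun j i => ∑ k, (M i j k : ℂ) * x k with hB
    have hv : x ᵥ* B = 0 := by
      funext i
      have := hc i
      change (x ᵥ* B) i = (0 : ℂ)
      rw [← this]
      simp only [Matrix.vecMul, dotProduct, hB, cq, qf, Matrix.mulVec, Matrix.map_apply]
      refine Finset.sum_congr rfl fun j _ => ?_
      rfl
    have hdet : B.det = 0 := Matrix.exists_vecMul_eq_zero_iff.1 ⟨x, hx, hv⟩
    obtain ⟨t, ht, htB⟩ := Matrix.exists_mulVec_eq_zero_iff.2 hdet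
    have hz : (gm M t).mulVec x = 0 := by
      rw [← htB]
      funext j
      simp only [Matrix.mulVec, dotProduct, hB, gm, Finset.sum_mul]
      rw [Finset.sum_comm]
      refine Finset.sum_congr rfl fun i _ => ?_
      refine Finset.sum_congr rfl fun k _ => ?_
      ring
    have hq : qf (gm M t) x = 0 := by
      unfold qf
      rw [hz, dotProduct_zero]
    rcases hS t x ht hx hq with ⟨i, hi⟩ | ⟨j, hj⟩
    · exact hi (hc i)
    · exact hj (by rw [hz]; rfl)
  -- (2)
  have h2 : ∃ t : Fin 3 → ℤ, (gm M t).det ≠ 0 := by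
    by_contra hc
    push Not at hc
    have hP : PD M = 0 := by
      apply MvPolynomial.funext
      intro t
      have h3 := PD_eval M t
      have h4 : MvPolynomial.aeval t (PD M) = MvPolynomial.eval t (PD M) := rfl
      rw [← h4, h3]
      have h5 : (gm M t).det = 0 := hc t
      rw [h5, map_zero]
    have hall : ∀ t : Fin 3 → ℂ, (gm M t).det = 0 := by
      intro t
      rw [← PD_eval, hP, map_zero]
    set t : Fin 3 → ℂ := fun _ => 1 with ht
    have ht0 : t ≠ 0 := by
      intro h
      have := congrFun h 0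
      simp [ht] at this
    set A := gm M t with hA
    set P := A.adjugate with hPdef
    obtain ⟨i, j, hij⟩ := hN t ht0
    have hPs : Pᵀ = P := by
      rw [hPdef, Matrix.adjugate_transpose, hA, gm_symm M hM]
    have hPP : P.adjugate = 0 := by
      rw [hPdef, Matrix.adjugate_adjugate _ (by simp), hall]
      simp
    have hrk := rank_one P hPs hPP
    have hii : P i i ≠ 0 := by
      intro h
      have h3 := hrk i j j
      rw [h, zero_mul] at h3
      have h4 : P j i = P i j := congrFun (congrFun hPs i) j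
      rw [h4] at h3
      have h5 : P i j = 0 := by
        rcases mul_eq_zero.1 h3.symm with h | h <;> exact h
      exact hij h5
    have hk : (fun m => P m i) ≠ 0 := by
      intro h
      exact hii (congrFun h i)
    obtain ⟨l, hl⟩ := h1 _ hk
    apply hl
    set s : Fin 3 → ℂ := Pi.single l 1 with hs
    have htr : (P * gm M s).trace = 0 := by
      apply tr_zero
      intro e
      rw [hA, ← gm_add, hall]
    have hgs : ∀ a b, gm M s a b = (M l a b : ℂ) := by
      intro a b
      simp only [gm, hs, Pi.single_apply, ite_mul, one_mul, zero_mul, Finset.sum_ite_eq',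
        Finset.mem_univ, if_true]
    have h3 : cq M (fun m => P m i) l = P i i * (P * gm M s).trace := by
      simp only [cq, qf, Matrix.mulVec, dotProduct, Matrix.map_apply, Matrix.trace,
        Matrix.diag_apply, Matrix.mul_apply, Finset.mul_sum, hgs]
      refine Finset.sum_congr rfl fun a _ => ?_
      refine Finset.sum_congr rfl fun b _ => ?_
      have h4 := hrk i a b
      have h5 : P i b = P b i := congrFun (congrFun hPs b) i
      have h6 : M l a b = M l b a := (hM l).apply b a
      have h7 : (Int.castRingHom ℂ) (M l a b) = (M l b a : ℂ) := by rw [h6]; rfl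
      rw [h7]
      linear_combination -(M l b a : ℂ) * h4 - P a i * (M l b a : ℂ) * h5
    rw [h3, htr, mul_zero]
  -- (3)
  refine ⟨h1, h2, ?_⟩
  obtain ⟨t, ht⟩ := h2
  set tc : Fin 3 → ℂ := fun i => (t i : ℂ) with htc
  have hdet : (gm M tc).det ≠ 0 := by
    have e : (Int.castRingHom ℂ) (gm M t).det = (gm M tc).det := by
      rw [RingHom.map_det]
      congr 1
      ext j k
      simp [gm, htc]
    intro h
    apply ht
    rw [← e] at h
    have : ((gm M t).det : ℂ) = 0 := h
    exact_mod_cast this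
  have htc0 : tc ≠ 0 := by
    intro h
    apply hdet
    have : gm M tc = 0 := by
      ext j k
      simp [gm, h]
    rw [this, Matrix.det_zero]
  set A := gm M tc with hA
  have hAs : ∀ a b, A a b = A b a := fun a b => congrFun (congrFun (gm_symm M hM tc) b) a
  by_cases h0 : A 0 0 = 0
  · refine ⟨tc, ![1, 0, 0], htc0, ?_, ?_, hdet⟩
    · intro h
      have := congrFun h 0
      simp at this
    · simp [qf, Matrix.mulVec, dotProduct, Fin.sum_univ_three, ← hA, h0]
  · obtain ⟨r, hr⟩ := IsAlgClosed.exists_pow_nat_eq (A 0 1 ^ 2 - A 0 0 * A 1 1) (n := 2) (by norm_num)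
    refine ⟨tc, ![(-(A 0 1) + r) / A 0 0, 1, 0], htc0, ?_, ?_, hdet⟩
    · intro h
      have := congrFun h 1
      simp at this
    · rw [← hA]
      simp only [qf, Matrix.mulVec, dotProduct, Fin.sum_univ_three, Matrix.cons_val_zero,
        Matrix.cons_val_one, Matrix.cons_val, hAs 1 0]
      field_simp
      linear_combination hr

end Pool.Agent.R38.NC
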