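import Pool.Agent.R38.NC.Stm

/-!
Part LAT: counting the parameters of the conics of the net through a given point.
-/

set_option autoImplicit false

namespace Pool.Agent.R38.NC

open Matrix Finset
open Pool.Agent.H548.WM (ht bx Rep mem_bx card_bx le_ht' ht_pos)

namespace Lat

/-- the cross product -/
def cr (u v : Fin 3 → ℤ) : Fin 3 → ℤ :=
  ![u 1 * v 2 - u 2 * v 1, u 2 * v 0 - u 0 * v 2, u 0 * v 1 - u 1 * v 0]

lemma rep_prim {v : Fin 3 → ℤ} (h : Rep v) : Prim v := by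
  intro d hd
  have h1 : d ∣ Finset.univ.gcd v := Finset.dvd_gcd fun i _ => hd i
  rw [h.1] at h1
  exact isUnit_of_dvd_one h1

lemma bezout {v : Fin 3 → ℤ} (h : Finset.univ.gcd v = 1) :
    ∃ u : Fin 3 → ℤ, u 0 * v 0 + u 1 * v 1 + u 2 * v 2 = 1 := by
  obtain ⟨g, hg⟩ := Finset.gcd_eq_sum_mul (Finset.univ : Finset (Fin 3)) v
  rw [h, Fin.sum_univ_three] at hg
  exact ⟨g, by linarith⟩

lemma rep_ne_zero {v : Fin 3 → ℤ} (h : Rep v) : v ≠ 0 := by
  obtain ⟨i, hi, -⟩ := h.2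
  rintro rfl
  simp at hi

/-- two normalised primitive vectors which are proportional are equal -/
lemma rep_eq {t t' : Fin 3 → ℤ} (h : Rep t) (h' : Rep t') (hc : cr t t' = 0) : t = t' := by
  obtain ⟨u, hu⟩ := bezout h.1
  have c0 : t 1 * t' 2 - t 2 * t' 1 = 0 := by simpa [cr] using congrFun hc 0
  have c1 : t 2 * t' 0 - t 0 * t' 2 = 0 := by simpa [cr] using congrFun hc 1
  have c2 : t 0 * t' 1 - t 1 * t' 0 = 0 := by simpa [cr] using congrFun hc 2
  set l : ℤ := u 0 * t' 0 + u 1 * t' 1 + u 2 * t' 2 with hl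
  have e0 : t' 0 = l * t 0 := by
    rw [hl]; linear_combination (-t' 0) * hu + u 2 * c1 - u 1 * c2
  have e1 : t' 1 = l * t 1 := by
    rw [hl]; linear_combination (-t' 1) * hu + u 0 * c2 - u 2 * c0
  have e2 : t' 2 = l * t 2 := by
    rw [hl]; linear_combination (-t' 2) * hu + u 1 * c0 - u 0 * c1
  have e : ∀ i, t' i = l * t i := by
    intro i; fin_cases i
    · exact e0
    · exact e1
    · exact e2
  have hlu : IsUnit l := rep_prim h' l fun i => ⟨t i, e i⟩
  rcases Int.isUnit_iff.mp hlu with h1 | h1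
  · funext i; rw [e i, h1, one_mul]
  · exfalso
    obtain ⟨i, hi, hi0⟩ := h.2
    obtain ⟨j, hj, hj0⟩ := h'.2
    rcases lt_trichotomy i j with hij | hij | hij
    · have := hj0 i hij
      rw [e i, h1] at this
      linarith
    · subst hij
      rw [e i, h1] at hj
      linarith
    · have := hi0 j hij
      rw [e j, this] at hj
      simp at hj

/-- the number of vectors of a plane -/
lemma plane (h1 : S_TRI) (c c' u : Fin 3 → ℤ) (d : ℤ) (hc : ∀ i, c i = d * c' i) (hd : d ≠ 0)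
    (hu : u 0 * c' 0 + u 1 * c' 1 + u 2 * c' 2 = 1) (A : ℕ) (i0 : Fin 3) (R : ℝ)
    (hR : 2 * (A : ℝ) ^ 2 ≤ R * |((c' i0 : ℤ) : ℝ)|) (hi0 : c' i0 ≠ 0)
    (S : Finset (Fin 3 → ℤ)) (hS : ∀ t ∈ S, Rep t ∧ ht t ≤ A ∧
      t 0 * c 0 + t 1 * c 1 + t 2 * c 2 = 0) :
    (S.card : ℝ) ≤ 4 * R + 2 := by
  have hS' : ∀ t ∈ S, t 0 * c' 0 + t 1 * c' 1 + t 2 * c' 2 = 0 := by
    intro t ht
    have h := (hS t ht).2.2
    rw [hc 0, hc 1, hc 2] at h
    have h2 : d * (t 0 * c' 0 + t 1 * c' 1 + t 2 * c' 2) = 0 := by linear_combination h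
    exact (mul_eq_zero.mp h2).resolve_left hd
  set N : (Fin 3 → ℤ) → (Fin 3 → ℤ) → ℤ := fun v w =>
    u 0 * (v 1 * w 2 - v 2 * w 1) + u 1 * (v 2 * w 0 - v 0 * w 2) +
      u 2 * (v 0 * w 1 - v 1 * w 0) with hN
  have hcr : ∀ v ∈ S, ∀ w ∈ S, ∀ i, cr v w i = N v w * c' i := by
    intro v hv w hw i
    have a := hS' v hv
    have b := hS' w hw
    fin_cases i
    · simp only [cr, hN, Fin.zero_eta, Matrix.cons_val]
      linear_combination (-(v 1 * w 2 - v 2 * w 1)) * hu + (u 1 * w 2 - u 2 * w 1) * a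
        + (u 2 * v 1 - u 1 * v 2) * b
    · simp only [cr, hN, Fin.mk_one, Matrix.cons_val]
      linear_combination (-(v 2 * w 0 - v 0 * w 2)) * hu + (u 2 * w 0 - u 0 * w 2) * a
        + (u 0 * v 2 - u 2 * v 0) * b
    · simp only [cr, hN, Fin.reduceFinMk, Matrix.cons_val]
      linear_combination (-(v 0 * w 1 - v 1 * w 0)) * hu + (u 0 * w 1 - u 1 * w 0) * a
        + (u 1 * v 0 - u 0 * v 1) * b
  have hR0 : 0 ≤ R := by
    have hp : 0 < |((c' i0 : ℤ) : ℝ)| := abs_pos.mpr (by exact_mod_cast hi0)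
    by_contra hneg
    push Not at hneg
    have : R * |((c' i0 : ℤ) : ℝ)| < 0 := mul_neg_of_neg_of_pos hneg hp
    have : 0 ≤ 2 * (A : ℝ) ^ 2 := by positivity
    linarith
  have hbd : ∀ v ∈ S, ∀ w ∈ S, |N v w| ≤ ((⌊R⌋₊ : ℕ) : ℤ) := by
    intro v hv w hw
    have h3 := hcr v hv w hw i0
    have hv' : ∀ i, |v i| ≤ (A : ℤ) := fun i =>
      (le_ht' v i).trans (by exact_mod_cast (hS v hv).2.1)
    have hw' : ∀ i, |w i| ≤ (A : ℤ) := fun i =>
      (le_ht' w i).trans (by exact_mod_cast (hS w hw).2.1)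
    have hvw : ∀ i j, |v i * w j| ≤ (A : ℤ) ^ 2 := by
      intro i j
      rw [abs_mul, sq]
      exact mul_le_mul (hv' i) (hw' j) (abs_nonneg _) (by positivity)
    have hd2 : ∀ i j k l, |v i * w j - v k * w l| ≤ 2 * (A : ℤ) ^ 2 := by
      intro i j k l
      have := abs_sub (v i * w j) (v k * w l)
      have := hvw i j
      have := hvw k l
      linarith
    have h4 : |cr v w i0| ≤ 2 * (A : ℤ) ^ 2 := by
      fin_cases i0
      · simpa [cr] using hd2 1 2 2 1
      · simpa [cr] using hd2 2 0 0 2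
      · simpa [cr] using hd2 0 1 1 0
    rw [h3, abs_mul] at h4
    have h5 : (|((N v w : ℤ) : ℝ)|) * |((c' i0 : ℤ) : ℝ)| ≤ 2 * (A : ℝ) ^ 2 := by
      exact_mod_cast h4
    have hp : 0 < |((c' i0 : ℤ) : ℝ)| := abs_pos.mpr (by exact_mod_cast hi0)
    have h6 : |((N v w : ℤ) : ℝ)| ≤ R := le_of_mul_le_mul_right (h5.trans hR) hp
    have h7 : (N v w).natAbs ≤ ⌊R⌋₊ := by
      apply Nat.le_floor
      rw [Nat.cast_natAbs]
      exact_mod_cast h6
    rw [Int.abs_eq_natAbs]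
    exact_mod_cast h7
  obtain ⟨h2, -⟩ := h1 3 S N (fun v hv => rep_prim (hS v hv).1)
    (by
      intro v hv w hw hne h0
      apply hne
      apply rep_eq (hS v hv).1 (hS w hw).1
      funext i
      rw [hcr v hv w hw i, h0]
      simp)
    (by
      intro v _ w _
      simp only [hN]
      ring)
    (by
      intro x hx v hv w hw i
      -- det (x, v, w) = 0
      have hdet : x 0 * (v 1 * w 2 - v 2 * w 1) + x 1 * (v 2 * w 0 - v 0 * w 2) +
          x 2 * (v 0 * w 1 - v 1 * w 0) = 0 := by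
        have e0 := hcr v hv w hw 0
        have e1 := hcr v hv w hw 1
        have e2 := hcr v hv w hw 2
        simp only [cr, Matrix.cons_val] at e0 e1 e2
        have a := hS' x hx
        rw [e0, e1, e2]
        linear_combination (N v w) * a
      simp only [hN]
      fin_cases i
      · simp only [Fin.zero_eta]
        linear_combination (u 0) * hdet
      · simp only [Fin.mk_one]
        linear_combination (u 1) * hdet
      · simp only [Fin.reduceFinMk]
        linear_combination (u 2) * hdet)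
  have h3 := h2 ⌊R⌋₊ hbd
  have h4 : (S.card : ℝ) ≤ 4 * (⌊R⌋₊ : ℝ) + 2 := by exact_mod_cast h3
  have h5 := Nat.floor_le hR0
  linarith

/-- the sum of the inverse squares of the heights -/
lemma sum_ht (B : ℕ) : ∑ x ∈ bx 3 B, 1 / ((ht x : ℕ) : ℝ) ^ 2 ≤ 26 * (B : ℝ) := by
  classical
  induction B with
  | zero =>
    apply le_of_eq
    simp only [Nat.cast_zero, mul_zero]
    apply Finset.sum_eq_zero
    intro x hx
    rw [mem_bx] at hx
    have : ht x = 0 := by omega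
    rw [this]
    simp
  | succ B ih =>
    have hsub : bx 3 B ⊆ bx 3 (B + 1) := by
      intro x hx
      rw [mem_bx] at hx ⊢
      omega
    rw [← Finset.sum_sdiff hsub]
    have h1 : ∑ x ∈ bx 3 (B + 1) \ bx 3 B, 1 / ((ht x : ℕ) : ℝ) ^ 2
        = ∑ x ∈ bx 3 (B + 1) \ bx 3 B, 1 / ((B : ℝ) + 1) ^ 2 := by
      apply Finset.sum_congr rfl
      intro x hx
      rw [Finset.mem_sdiff, mem_bx, mem_bx] at hx
      have : ht x = B + 1 := by omega
      rw [this]
      push_cast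
      rfl
    rw [h1, Finset.sum_const, Finset.card_sdiff_of_subset hsub, card_bx, card_bx, nsmul_eq_mul]
    have h2 : (2 * B + 1) ^ 3 ≤ (2 * (B + 1) + 1) ^ 3 := Nat.pow_le_pow_left (by omega) 3
    rw [Nat.cast_sub h2]
    push_cast
    have h3 : ((2 * ((B : ℝ) + 1) + 1) ^ 3 - (2 * (B : ℝ) + 1) ^ 3) * (1 / ((B : ℝ) + 1) ^ 2)
        ≤ 26 := by
      have hpos : (0 : ℝ) < ((B : ℝ) + 1) ^ 2 := by positivity
      rw [mul_one_div, div_le_iff₀ hpos]
      have : (0 : ℝ) ≤ B := Nat.cast_nonneg B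
      nlinarith
    linarith

/-- the quadratic form as a polynomial -/
noncomputable def fp (M : Fin 3 → Matrix (Fin 3) (Fin 3) ℤ) (i : Fin 3) :
    MvPolynomial (Fin 3) ℤ :=
  ∑ j, ∑ k, MvPolynomial.C (M i j k) * (MvPolynomial.X j * MvPolynomial.X k)

lemma fp_hom (M : Fin 3 → Matrix (Fin 3) (Fin 3) ℤ) (i : Fin 3) : (fp M i).IsHomogeneous 2 := by
  unfold fp
  apply MvPolynomial.IsHomogeneous.sum
  intro j _
  apply MvPolynomial.IsHomogeneous.sum
  intro k _
  have h := (MvPolynomial.isHomogeneous_C (Fin 3) (M i j k)).mul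
    ((MvPolynomial.isHomogeneous_X ℤ j).mul (MvPolynomial.isHomogeneous_X ℤ k))
  simpa using h

lemma fp_eval (M : Fin 3 → Matrix (Fin 3) (Fin 3) ℤ) (i : Fin 3) (x : Fin 3 → ℤ) :
    MvPolynomial.eval x (fp M i) = cq M x i := by
  simp only [fp, map_sum, map_mul, MvPolynomial.eval_C, MvPolynomial.eval_X]
  simp only [cq, qf, dotProduct, mulVec, Matrix.map_apply, eq_intCast, Int.cast_id,
    Finset.mul_sum]
  apply Finset.sum_congr rfl
  intro j _
  apply Finset.sum_congr rfl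
  intro k _
  ring

lemma fp_aeval (M : Fin 3 → Matrix (Fin 3) (Fin 3) ℤ) (i : Fin 3) (x : Fin 3 → ℂ) :
    MvPolynomial.aeval x (fp M i) = cq M x i := by
  simp only [fp, map_sum, map_mul, MvPolynomial.aeval_C, MvPolynomial.aeval_X]
  simp only [cq, qf, dotProduct, mulVec, Matrix.map_apply, eq_intCast, algebraMap_int_eq,
    Finset.mul_sum]
  apply Finset.sum_congr rfl
  intro j _
  apply Finset.sum_congr rfl
  intro k _
  ring

lemma qf_gm (M : Fin 3 → Matrix (Fin 3) (Fin 3) ℤ) (t x : Fin 3 → ℤ) :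
    qf (gm M t) x = t 0 * cq M x 0 + t 1 * cq M x 1 + t 2 * cq M x 2 := by
  simp only [qf, gm, cq, dotProduct, mulVec, Fin.sum_univ_three, Matrix.map_apply, eq_intCast,
    Int.cast_id]
  ring

end Lat

open Pool.Agent.R38.NC.Lat in
/-- Part LAT. -/
theorem lat_ (h1 : S_TRI) (h2 : S_NST) : S_LAT := by
  classical
  intro M hM
  obtain ⟨⟨K, hK, hdiv⟩, c0, hc0, hlow⟩ := h2 3 (fp M) (fp_hom M)
    (fun x hx => by
      obtain ⟨i, hi⟩ := hM x hx
      exact ⟨i, by rw [fp_aeval]; exact hi⟩)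
  simp only [fp_eval] at hdiv hlow
  have hKr : (1 : ℝ) ≤ K := by exact_mod_cast hK
  refine ⟨208 * K / c0 + 54, by positivity, ?_⟩
  intro A B hA hB
  -- the bound for one x
  have hx : ∀ x ∈ (bx 3 B).filter Rep, (((PP M A B).filter fun z => z.2 = x).card : ℝ) ≤
      8 * K * A ^ 2 / c0 * (1 / ((ht x : ℕ) : ℝ) ^ 2) + 2 := by
    intro x hx
    rw [Finset.mem_filter, mem_bx] at hx
    obtain ⟨hxB, hxR⟩ := hx
    have hx0 := rep_ne_zero hxR
    have hht : 1 ≤ ht x := ht_pos hx0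
    have hhr : (1 : ℝ) ≤ (ht x : ℕ) := by exact_mod_cast hht
    obtain ⟨i0, hi0⟩ := hlow x hx0
    obtain ⟨c', hc', hg⟩ := Finset.extract_gcd (fun i => cq M x i)
      (Finset.univ_nonempty : (Finset.univ : Finset (Fin 3)).Nonempty)
    obtain ⟨u, hu⟩ := bezout hg
    set d : ℤ := Finset.univ.gcd (fun i => cq M x i) with hd
    have hdK : d ∣ (K : ℤ) := hdiv x (rep_prim hxR) d fun k =>
      Finset.gcd_dvd (Finset.mem_univ k)
    have hd0 : d ≠ 0 := by
      rintro h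
      rw [h, zero_dvd_iff] at hdK
      have : K = 0 := by exact_mod_cast hdK
      omega
    have hdle : |((d : ℤ) : ℝ)| ≤ K := by
      have h3 : |d| ≤ (K : ℤ) := by
        have := Int.le_of_dvd (by exact_mod_cast hK) ((abs_dvd d (K : ℤ)).mpr hdK)
        exact this
      exact_mod_cast h3
    have hcpos : 0 < c0 * ((ht x : ℕ) : ℝ) ^ 2 := by positivity
    have hci : c0 * ((ht x : ℕ) : ℝ) ^ 2 ≤ K * |((c' i0 : ℤ) : ℝ)| := by
      have h3 : cq M x i0 = d * c' i0 := hc' i0 (Finset.mem_univ _)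
      rw [h3] at hi0
      push_cast at hi0
      rw [abs_mul] at hi0
      exact hi0.trans (mul_le_mul_of_nonneg_right hdle (abs_nonneg _))
    have hci0 : c' i0 ≠ 0 := by
      intro h
      rw [h] at hci
      simp at hci
      linarith
    set R : ℝ := 2 * K * A ^ 2 / c0 * (1 / ((ht x : ℕ) : ℝ) ^ 2) with hR
    have hR1 : 2 * (A : ℝ) ^ 2 ≤ R * |((c' i0 : ℤ) : ℝ)| := by
      have h4 : R * |((c' i0 : ℤ) : ℝ)| =
          (2 * A ^ 2) * ((K * |((c' i0 : ℤ) : ℝ)|) / (c0 * ((ht x : ℕ) : ℝ) ^ 2)) := by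
        rw [hR]
        field_simp
      rw [h4]
      have h5 : 1 ≤ (K * |((c' i0 : ℤ) : ℝ)|) / (c0 * ((ht x : ℕ) : ℝ) ^ 2) := by
        rw [le_div_iff₀ hcpos]
        linarith
      have h6 : 0 ≤ 2 * (A : ℝ) ^ 2 := by positivity
      nlinarith
    have hpl := plane h1 (fun i => cq M x i) c' u d (fun i => hc' i (Finset.mem_univ i)) hd0
      hu A i0 R hR1 hci0 (((PP M A B).filter fun z => z.2 = x).image Prod.fst) (by
        intro t ht'
        rw [Finset.mem_image] at ht'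
        obtain ⟨z, hz, rfl⟩ := ht'
        rw [Finset.mem_filter] at hz
        obtain ⟨hz, rfl⟩ := hz
        unfold PP at hz
        rw [Finset.mem_filter, Finset.mem_product, mem_bx, mem_bx] at hz
        obtain ⟨⟨hzA, -⟩, hzR, -, hq, -⟩ := hz
        refine ⟨hzR, hzA, ?_⟩
        rw [qf_gm] at hq
        exact hq)
    have hcard : (((PP M A B).filter fun z => z.2 = x).image Prod.fst).card =
        ((PP M A B).filter fun z => z.2 = x).card := by
      apply Finset.card_image_of_injOn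
      intro z hz z' hz' hzz
      rw [Finset.mem_coe, Finset.mem_filter] at hz hz'
      exact Prod.ext hzz (hz.2.trans hz'.2.symm)
    rw [hcard] at hpl
    refine hpl.trans (le_of_eq ?_)
    rw [hR]
    ring
  -- summation
  have hmaps : Set.MapsTo Prod.snd (PP M A B : Set ((Fin 3 → ℤ) × (Fin 3 → ℤ)))
      (((bx 3 B).filter Rep : Finset (Fin 3 → ℤ)) : Set (Fin 3 → ℤ)) := by
    intro z hz
    rw [Finset.mem_coe] at hz ⊢
    unfold PP at hz
    rw [Finset.mem_filter, Finset.mem_product] at hz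
    rw [Finset.mem_filter]
    exact ⟨hz.1.2, hz.2.2.1⟩
  have hcard := Finset.card_eq_sum_card_fiberwise hmaps
  have h3 : ((PP M A B).card : ℝ) ≤
      ∑ x ∈ bx 3 B, (8 * K * A ^ 2 / c0 * (1 / ((ht x : ℕ) : ℝ) ^ 2) + 2) := by
    rw [hcard]
    push_cast
    refine (Finset.sum_le_sum hx).trans ?_
    apply Finset.sum_le_sum_of_subset_of_nonneg (Finset.filter_subset _ _)
    intro x _ _
    positivity
  rw [Finset.sum_add_distrib, ← Finset.mul_sum, Finset.sum_const, card_bx, nsmul_eq_mul] at h3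
  have h4 := sum_ht B
  have h5 : (0 : ℝ) ≤ 8 * K * A ^ 2 / c0 := by positivity
  have h6 := mul_le_mul_of_nonneg_left h4 h5
  have hBr : (1 : ℝ) ≤ B := by exact_mod_cast hB
  have h7 : (2 * (B : ℝ) + 1) ^ 3 ≤ (3 * B) ^ 3 := by
    apply pow_le_pow_left₀ (by positivity)
    linarith
  push_cast at h3
  have h8 : (208 * K / c0 + 54) * ((B : ℝ) ^ 3 + (A : ℝ) ^ 2 * B) =
      8 * K * A ^ 2 / c0 * (26 * B) + 54 * (B : ℝ) ^ 3 + 208 * K / c0 * B ^ 3 +
        54 * (A ^ 2 * B) := by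
    field_simp
    ring
  have h9 : (0 : ℝ) ≤ 208 * K / c0 * B ^ 3 := by positivity
  have h10 : (0 : ℝ) ≤ 54 * ((A : ℝ) ^ 2 * B) := by positivity
  rw [h8]
  nlinarith

end Pool.Agent.R38.NC
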