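import Pool.Agent.R38.NC.Stm

/-! Part NST: quadratic forms without common zeros. -/

set_option autoImplicit false

namespace Pool.Agent.R38.NC

open MvPolynomial Finset
open Pool.Agent.H548.WM (ht bx Rep)

namespace Nst

theorem denom {σ : Type} (f : MvPolynomial σ ℚ) : ∃ D : ℕ, 1 ≤ D ∧
    ∀ p : σ → ℤ, ∃ n : ℤ, (D : ℚ) * aeval (fun i => (p i : ℚ)) f = n := by
  induction f using MvPolynomial.induction_on' with
  | monomial u a =>
    refine ⟨a.den, a.pos, fun p => ⟨a.num * u.prod fun i k => p i ^ k, ?_⟩⟩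
    rw [aeval_monomial, ← mul_assoc]
    push_cast
    congr 1
    rw [mul_comm]
    exact Rat.mul_den_eq_num a
  | add f₁ f₂ h1 h2 =>
    obtain ⟨D1, hD1, h1⟩ := h1
    obtain ⟨D2, hD2, h2⟩ := h2
    refine ⟨D1 * D2, Nat.mul_pos hD1 hD2, fun p => ?_⟩
    obtain ⟨n1, e1⟩ := h1 p
    obtain ⟨n2, e2⟩ := h2 p
    refine ⟨D2 * n1 + D1 * n2, ?_⟩
    rw [map_add]
    push_cast
    rw [← e1, ← e2]
    ring

/-- the polynomial over `ℚ` -/
noncomputable def fq (f : MvPolynomial (Fin 3) ℤ) : MvPolynomial (Fin 3) ℚ :=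
  MvPolynomial.map (Int.castRingHom ℚ) f

theorem aeval_fq {A : Type} [CommRing A] [Algebra ℚ A] (f : MvPolynomial (Fin 3) ℤ)
    (x : Fin 3 → A) : aeval x (fq f) = aeval x f := by
  unfold fq
  rw [aeval_def, eval₂_map, aeval_def]
  congr 1
  exact RingHom.ext_int _ _

theorem aeval_int {A : Type} [CommRing A] (f : MvPolynomial (Fin 3) ℤ) (x : Fin 3 → ℤ) :
    aeval (fun i => (x i : A)) f = ((eval x f : ℤ) : A) := by
  have h := MvPolynomial.map_aeval (σ := Fin 3) (R := ℤ) (B := A) x (Int.castRingHom A) f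
  have h1 : aeval (fun i => (x i : A)) f = eval₂ (Int.castRingHom A) (fun i => (x i : A)) f := by
    rw [aeval_def]
    congr 1
  rw [h1]
  have h2 := MvPolynomial.eval₂_comp_left (Int.castRingHom A) (RingHom.id ℤ) x f
  have h3 : eval₂ (RingHom.id ℤ) x f = eval x f := rfl
  rw [h3] at h2
  have h4 : (Int.castRingHom A) (eval x f) = ((eval x f : ℤ) : A) := rfl
  rw [← h4, h2]
  rfl

theorem power {n : ℕ} {f : Fin n → MvPolynomial (Fin 3) ℤ}
    (ha : ∀ x : Fin 3 → ℂ, x ≠ 0 → ∃ k, aeval x (f k) ≠ 0) (i : Fin 3) :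
    ∃ (D N : ℕ), 1 ≤ D ∧ ∀ p : Fin 3 → ℤ, ∀ g : ℤ,
      (∀ k, g ∣ eval p (f k)) → g ∣ (D : ℤ) * (p i) ^ N := by
  set I : Ideal (MvPolynomial (Fin 3) ℚ) := Ideal.span (Set.range fun k => fq (f k)) with hI
  have h1 : (X i : MvPolynomial (Fin 3) ℚ) ∈ I.radical := by
    rw [← vanishingIdeal_zeroLocus_eq_radical (K := ℂ) I, mem_vanishingIdeal_iff]
    intro x hx
    rw [hI, zeroLocus_span] at hx
    rw [aeval_X]
    by_cases hx0 : x = 0
    · rw [hx0, Pi.zero_apply]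
    · exfalso
      obtain ⟨k, h⟩ := ha _ hx0
      refine h ?_
      have h2 := hx (fq (f k)) ⟨k, rfl⟩
      rw [aeval_fq] at h2
      exact h2
  obtain ⟨N, hN⟩ := Ideal.mem_radical_iff.1 h1
  rw [hI, Ideal.mem_span_range_iff_exists_fun] at hN
  obtain ⟨c, hc⟩ := hN
  choose D hD hDn using fun t => denom (c t)
  refine ⟨∏ t, D t, N, Nat.one_le_iff_ne_zero.2 (Finset.prod_pos fun t _ => hD t).ne',
    fun p g hg => ?_⟩
  choose m hm using fun t => hDn t p
  have h3 : ∀ t, ∃ e : ℕ, ∏ t, D t = D t * e := fun t =>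
    Finset.dvd_prod_of_mem D (Finset.mem_univ t)
  choose e he using h3
  have h4 : ((∏ t, D t : ℕ) : ℤ) * (p i) ^ N = ∑ t, (e t * m t) * eval p (f t) := by
    have h5 := congrArg (aeval (fun i => ((p i : ℤ) : ℚ))) hc
    rw [map_sum, map_pow, aeval_X] at h5
    have h6 : (((∏ t, D t : ℕ) : ℤ) : ℚ) * (p i : ℚ) ^ N =
        ∑ t, ((e t : ℚ) * m t) * ((eval p (f t) : ℤ) : ℚ) := by
      rw [← h5, Finset.mul_sum]
      refine Finset.sum_congr rfl fun t _ => ?_
      rw [map_mul, aeval_fq, aeval_int, ← hm t, he t]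
      push_cast
      ring
    have h8 : ((((∏ t, D t : ℕ) : ℤ) * (p i) ^ N : ℤ) : ℚ) =
      ((∑ t, (e t * m t) * eval p (f t) : ℤ) : ℚ) := by
      rw [Int.cast_mul, Int.cast_pow, h6, Int.cast_sum]
      refine Finset.sum_congr rfl fun t _ => ?_
      rw [Int.cast_mul, Int.cast_mul, Int.cast_natCast]
    exact_mod_cast h8
  rw [h4]
  exact Finset.dvd_sum fun t _ => Dvd.dvd.mul_left (hg _) _

theorem content {n : ℕ} {f : Fin n → MvPolynomial (Fin 3) ℤ}
    (ha : ∀ x : Fin 3 → ℂ, x ≠ 0 → ∃ k, aeval x (f k) ≠ 0) :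
    ∃ K : ℕ, 1 ≤ K ∧ ∀ x : Fin 3 → ℤ, Prim x →
      ∀ d : ℤ, (∀ k, d ∣ eval x (f k)) → d ∣ (K : ℤ) := by
  choose D N hD h using power ha
  refine ⟨∏ i, D i, Nat.one_le_iff_ne_zero.2 (Finset.prod_pos fun i _ => hD i).ne', ?_⟩
  intro p hp g hg
  set J : Ideal ℤ := Submodule.comap (LinearMap.mulLeft ℤ (((∏ i, D i : ℕ) : ℤ)))
    (Ideal.span {g}) with hJ
  have hmem : ∀ x : ℤ, x ∈ J ↔ g ∣ ((∏ i, D i : ℕ) : ℤ) * x := by
    intro x
    rw [hJ, Submodule.mem_comap, LinearMap.mulLeft_apply, Ideal.mem_span_singleton]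
  have h1 : ∀ i, p i ∈ J.radical := by
    intro i
    refine Ideal.mem_radical_iff.2 ⟨N i, ?_⟩
    rw [hmem]
    obtain ⟨e, he⟩ : D i ∣ ∏ i, D i := Finset.dvd_prod_of_mem D (Finset.mem_univ i)
    rw [he]
    have h2 := h i p g hg
    have h3 : (((D i * e : ℕ) : ℤ) * (p i) ^ N i) = e * ((D i : ℤ) * (p i) ^ N i) := by
      push_cast
      ring
    rw [h3]
    exact Dvd.dvd.mul_left h2 _
  have h2 : (1 : ℤ) ∈ J.radical := by
    have h3 : Ideal.span (Set.range p) ≤ J.radical := by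
      rw [Ideal.span_le]
      rintro _ ⟨i, rfl⟩
      exact h1 i
    obtain ⟨d, hd⟩ := (IsPrincipalIdealRing.principal (Ideal.span (Set.range p))).principal
    have h4 : IsUnit d := by
      refine hp d fun i => ?_
      have h5 : p i ∈ Ideal.span (Set.range p) := Ideal.subset_span ⟨i, rfl⟩
      rw [hd] at h5
      exact Ideal.mem_span_singleton.1 h5
    have h5 : Ideal.span (Set.range p) = ⊤ := by
      rw [hd]
      exact Ideal.span_singleton_eq_top.2 h4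
    rw [h5] at h3
    exact h3 trivial
  obtain ⟨m, hm⟩ := Ideal.mem_radical_iff.1 h2
  rw [one_pow, hmem, mul_one] at hm
  exact hm

theorem hom_smul {f : MvPolynomial (Fin 3) ℤ} (hf : f.IsHomogeneous 2) (c : ℝ) (x : Fin 3 → ℝ) :
    aeval (c • x) f = c ^ 2 * aeval x f := by
  rw [aeval_def, aeval_def, eval₂_eq', eval₂_eq', Finset.mul_sum]
  refine Finset.sum_congr rfl fun d hd => ?_
  have h1 := hf (mem_support_iff.1 hd)
  rw [Finsupp.weight_apply, Finsupp.sum_fintype _ _ (by simp)] at h1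
  simp only [Pi.one_apply, smul_eq_mul, mul_one] at h1
  have h2 : ∏ i, (c • x) i ^ d i = c ^ 2 * ∏ i, x i ^ d i := by
    simp only [Pi.smul_apply, smul_eq_mul, mul_pow]
    rw [Finset.prod_mul_distrib, Finset.prod_pow_eq_pow_sum, h1]
  rw [h2]
  ring

theorem aeval_ofReal (f : MvPolynomial (Fin 3) ℤ) (x : Fin 3 → ℝ) :
    aeval (fun i => (x i : ℂ)) f = ((aeval x f : ℝ) : ℂ) := by
  have h := MvPolynomial.aeval_algebraMap_apply (A := ℝ) ℂ x f
  exact h

theorem size {n : ℕ} {f : Fin n → MvPolynomial (Fin 3) ℤ} (hf : ∀ k, (f k).IsHomogeneous 2)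
    (ha : ∀ x : Fin 3 → ℂ, x ≠ 0 → ∃ k, aeval x (f k) ≠ 0) :
    ∃ κ : ℝ, 0 < κ ∧ ∀ x : Fin 3 → ℝ, κ * ‖x‖ ^ 2 ≤ ‖fun k => (aeval x (f k) : ℝ)‖ := by
  set S : Set (Fin 3 → ℝ) := Metric.sphere (0 : Fin 3 → ℝ) 1 with hS
  have hScomp : IsCompact S := isCompact_sphere _ _
  have hne : S.Nonempty := by
    have h : ‖(fun _ => 1 : Fin 3 → ℝ)‖ = 1 := by simp
    exact ⟨fun _ => 1, by simp [hS, h]⟩
  have hcont : Continuous fun x : Fin 3 → ℝ => ‖fun k => (aeval x (f k) : ℝ)‖ := by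
    refine continuous_norm.comp (continuous_pi fun k => ?_)
    have h1 : (fun x : Fin 3 → ℝ => (aeval x (f k) : ℝ)) = fun x : Fin 3 → ℝ =>
        eval x (MvPolynomial.map (Int.castRingHom ℝ) (f k)) := by
      funext x
      rw [eval_map, aeval_def]
      congr 1
    rw [h1]
    exact MvPolynomial.continuous_eval _
  obtain ⟨x₀, hx₀, hmin⟩ := hScomp.exists_isMinOn hne hcont.continuousOn
  have hnz : ∀ x : Fin 3 → ℝ, x ≠ 0 → (fun k => (aeval x (f k) : ℝ)) ≠ 0 := by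
    intro x hx h
    have hx' : (fun i => (x i : ℂ)) ≠ 0 := by
      intro h'
      apply hx
      funext i
      have := congrFun h' i
      simpa using this
    obtain ⟨k, hk⟩ := ha _ hx'
    apply hk
    rw [aeval_ofReal]
    have h1 := congrFun h k
    simp only [Pi.zero_apply] at h1
    rw [h1]
    simp
  have hsm : ∀ (c : ℝ) (x : Fin 3 → ℝ), (fun k => (aeval (c • x) (f k) : ℝ)) =
      (c ^ 2) • (fun k => (aeval x (f k) : ℝ)) := by
    intro c x
    funext k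
    rw [hom_smul (hf k), Pi.smul_apply, smul_eq_mul]
  refine ⟨‖fun k => (aeval x₀ (f k) : ℝ)‖, ?_, ?_⟩
  · rw [norm_pos_iff]
    refine hnz _ fun h => ?_
    rw [hS, mem_sphere_zero_iff_norm, h, norm_zero] at hx₀
    exact zero_ne_one hx₀
  · intro p
    by_cases hp : p = 0
    · rw [hp, norm_zero]
      simp
    have hp1 : 0 < ‖p‖ := norm_pos_iff.2 hp
    have hmem : ‖p‖⁻¹ • p ∈ S := by
      simp [hS, norm_smul, hp1.ne']
    have h1 : ‖fun k => (aeval x₀ (f k) : ℝ)‖ ≤ ‖fun k => (aeval (‖p‖⁻¹ • p) (f k) : ℝ)‖ :=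
      hmin hmem
    rw [hsm, norm_smul, norm_pow, norm_inv, norm_norm] at h1
    have h3 := mul_le_mul_of_nonneg_right h1 (pow_pos hp1 2).le
    refine h3.trans (le_of_eq ?_)
    field_simp

end Nst

theorem nst_ : S_NST := by
  intro n f hf ha
  refine ⟨Nst.content ha, ?_⟩
  obtain ⟨κ, hκ, h⟩ := Nst.size hf ha
  refine ⟨κ, hκ, fun x hx => ?_⟩
  have h1 := h fun i => (x i : ℝ)
  rw [Pool.Agent.H548.WM.norm_cast] at h1
  have hht : 0 < (ht x : ℝ) := by
    rw [← Pool.Agent.H548.WM.norm_cast, norm_pos_iff]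
    intro h2
    apply hx
    funext i
    have := congrFun h2 i
    simpa using this
  by_contra hcon
  push Not at hcon
  have h2 : ‖fun k => (aeval (fun i => (x i : ℝ)) (f k) : ℝ)‖ < κ * (ht x : ℝ) ^ 2 := by
    rw [pi_norm_lt_iff (by positivity)]
    intro k
    rw [Nst.aeval_int, Real.norm_eq_abs]
    exact hcon k
  linarith

end Pool.Agent.R38.NC
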