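import Pool.Agent.R38.NC.Stm

set_option autoImplicit false

/-! PAR: parametrization of the zeros -/

namespace Pool.Agent.R38.NC

theorem par_ : S_PAR := by
  intro a b c g u v w hv hprim hg heq
  have hk : 0 < Int.gcd u v := Int.gcd_pos_of_ne_zero_right u hv
  obtain ⟨s, t, hst, hu, hv'⟩ := Int.exists_gcd_one hk
  set k : ℤ := (Int.gcd u v : ℤ) with hkdef
  have hk0 : 0 < k := by rw [hkdef]; exact Int.natCast_pos.2 hk
  have hcop : IsCoprime s t := Int.isCoprime_iff_gcd_eq_one.2 hst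
  have hku : k ∣ u := Int.gcd_dvd_left u v
  have hkv : k ∣ v := Int.gcd_dvd_right u v
  have ht : t ≠ 0 := by
    rintro rfl
    apply hv
    rw [hv', zero_mul]
  have h1 : k * (a * s ^ 2 + 2 * b * s * t + c * t ^ 2) = -(2 * g * t) * w := by
    have h2 : k * (k * (a * s ^ 2 + 2 * b * s * t + c * t ^ 2)) = k * (-(2 * g * t) * w) := by
      have h3 := heq
      rw [hu, hv'] at h3
      linear_combination h3
    exact mul_left_cancel₀ hk0.ne' h2
  have hkw : IsCoprime k w := by
    rw [Int.isCoprime_iff_gcd_eq_one]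
    have h2 : IsUnit ((Int.gcd k w : ℕ) : ℤ) := hprim _
      ((Int.gcd_dvd_left k w).trans hku) ((Int.gcd_dvd_left k w).trans hkv) (Int.gcd_dvd_right k w)
    rw [Int.isUnit_iff] at h2
    omega
  have hdvd : k ∣ -(2 * g * t) := by
    refine hkw.dvd_of_dvd_mul_right ?_
    exact ⟨_, h1.symm⟩
  obtain ⟨β, hβ⟩ := hdvd
  refine ⟨s, t, k, β, hcop, hk0, by rw [mul_comm]; exact hu, by rw [mul_comm]; exact hv', ?_,
    hβ.symm, ?_⟩
  · rintro rfl
    rw [mul_zero, neg_eq_zero] at hβ
    rcases mul_eq_zero.1 hβ with h | h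
    · rcases mul_eq_zero.1 h with h | h
      · norm_num at h
      · exact hg h
    · exact ht h
  · have h2 : k * (β * w) = k * (a * s ^ 2 + 2 * b * s * t + c * t ^ 2) := by
      rw [h1, hβ]
      ring
    exact mul_left_cancel₀ hk0.ne' h2

end Pool.Agent.R38.NC
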