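import Pool.Agent.R38.NC.Stm

/-!
# Project NC: sums of negative powers of the values of a cubic form (`S_SUM`)
-/

set_option autoImplicit false

namespace Pool.Agent.R38.NC

open Finset
open Pool.Agent.H548.WM (ht bx mem_bx le_ht')

namespace SumAux

theorem harm (T : ℕ) (S : Finset ℤ) (c : ℤ) (hS : ∀ n ∈ S, (n - c).natAbs ≤ 2 * T) :
    ∑ n ∈ S, 1 / ((((n - c).natAbs : ℕ) : ℝ) + 1) ≤
      2 * (1 + Real.log ((2 * T + 1 : ℕ) : ℝ)) := by
  have h1 : ∑ n ∈ S, 1 / ((((n - c).natAbs : ℕ) : ℝ) + 1) =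
      ∑ k ∈ Finset.range (2 * T + 1), ∑ n ∈ S.filter (fun n => (n - c).natAbs = k),
        1 / ((((n - c).natAbs : ℕ) : ℝ) + 1) := by
    rw [Finset.sum_fiberwise_of_maps_to]
    intro n hn
    rw [Finset.mem_range]
    have := hS n hn
    omega
  rw [h1]
  have h2 : ∀ k ∈ Finset.range (2 * T + 1), ∑ n ∈ S.filter (fun n => (n - c).natAbs = k),
      1 / ((((n - c).natAbs : ℕ) : ℝ) + 1) ≤ 2 * (1 / ((k : ℝ) + 1)) := by
    intro k _
    calc ∑ n ∈ S.filter (fun n => (n - c).natAbs = k), 1 / ((((n - c).natAbs : ℕ) : ℝ) + 1)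
        = ∑ n ∈ S.filter (fun n => (n - c).natAbs = k), 1 / ((k : ℝ) + 1) :=
          Finset.sum_congr rfl (by
            intro n hn
            rw [(Finset.mem_filter.1 hn).2])
      _ = (S.filter (fun n => (n - c).natAbs = k)).card * (1 / ((k : ℝ) + 1)) := by
          rw [Finset.sum_const, nsmul_eq_mul]
      _ ≤ 2 * (1 / ((k : ℝ) + 1)) := by
          have h3 : (S.filter (fun n => (n - c).natAbs = k)) ⊆ {c + k, c - k} := by
            intro n hn
            rw [Finset.mem_filter] at hn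
            rw [Finset.mem_insert, Finset.mem_singleton]
            omega
          have h4 : (S.filter (fun n => (n - c).natAbs = k)).card ≤ 2 :=
            (Finset.card_le_card h3).trans Finset.card_le_two
          have h5 : ((S.filter (fun n => (n - c).natAbs = k)).card : ℝ) ≤ 2 := by
            exact_mod_cast h4
          exact mul_le_mul_of_nonneg_right h5 (by positivity)
  refine (Finset.sum_le_sum h2).trans ?_
  rw [← Finset.mul_sum]
  have h3 := harmonic_le_one_add_log (2 * T + 1)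
  have h4 : ((harmonic (2 * T + 1) : ℚ) : ℝ) =
      ∑ k ∈ Finset.range (2 * T + 1), 1 / ((k : ℝ) + 1) := by
    rw [harmonic]
    push_cast
    refine Finset.sum_congr rfl fun k _ => ?_
    rw [one_div]
  rw [h4] at h3
  linarith

theorem line1 (T : ℕ) (ρ : ℂ) :
    ∑ n ∈ Finset.Icc (-(T : ℤ)) T, 1 / max 1 ‖(n : ℂ) - ρ‖ ≤
      6 * (1 + Real.log ((2 * T + 1 : ℕ) : ℝ)) := by
  set c := ⌊ρ.re⌋ with hc
  set c' := max (-(T : ℤ)) (min (T : ℤ) c) with hc'
  calc ∑ n ∈ Finset.Icc (-(T : ℤ)) T, 1 / max 1 ‖(n : ℂ) - ρ‖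
      ≤ ∑ n ∈ Finset.Icc (-(T : ℤ)) T, 3 * (1 / ((((n - c').natAbs : ℕ) : ℝ) + 1)) := by
        refine Finset.sum_le_sum fun n hn => ?_
        rw [Finset.mem_Icc] at hn
        have h1 : (n - c').natAbs ≤ (n - c).natAbs := by omega
        have h2 : |(n : ℝ) - ρ.re| ≤ ‖(n : ℂ) - ρ‖ := by
          have := Complex.abs_re_le_norm ((n : ℂ) - ρ)
          simpa using this
        have h3 : (((n - c).natAbs : ℕ) : ℝ) ≤ |(n : ℝ) - ρ.re| + 1 := by
          have h4 : (((n - c).natAbs : ℕ) : ℝ) = |(n : ℝ) - c| := by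
            rw [Nat.cast_natAbs]
            push_cast
            rfl
          rw [h4]
          have h5 := Int.floor_le ρ.re
          have h6 := Int.lt_floor_add_one ρ.re
          have h7 : |(n : ℝ) - c| ≤ |(n : ℝ) - ρ.re| + |ρ.re - c| := abs_sub_le _ _ _
          have h8 : |ρ.re - c| ≤ 1 := by
            rw [abs_le]
            constructor <;> linarith
          linarith
        have h9 : (((n - c').natAbs : ℕ) : ℝ) ≤ ‖(n : ℂ) - ρ‖ + 1 := by
          have : (((n - c').natAbs : ℕ) : ℝ) ≤ (((n - c).natAbs : ℕ) : ℝ) := by exact_mod_cast h1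
          linarith
        have hp : (0 : ℝ) < (((n - c').natAbs : ℕ) : ℝ) + 1 := by positivity
        have hm1 : 1 ≤ max 1 ‖(n : ℂ) - ρ‖ := le_max_left _ _
        have hm2 : ‖(n : ℂ) - ρ‖ ≤ max 1 ‖(n : ℂ) - ρ‖ := le_max_right _ _
        rw [mul_one_div, div_le_div_iff₀ (by linarith) hp]
        linarith
    _ ≤ 6 * (1 + Real.log ((2 * T + 1 : ℕ) : ℝ)) := by
        rw [← Finset.mul_sum]
        have := harm T (Finset.Icc (-(T : ℤ)) T) c' (by
          intro n hn
          rw [Finset.mem_Icc] at hn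
          omega)
        linarith

theorem cube3 {F a b c : ℝ} (hF : 1 ≤ F) (h : a * b * c ≤ F) :
    1 / F ^ ((1 : ℝ) / 3) ≤ 1 / max 1 a + 1 / max 1 b + 1 / max 1 c := by
  set G := F ^ ((1 : ℝ) / 3) with hG
  have hG3 : G ^ 3 = F := by
    rw [hG, ← Real.rpow_natCast, ← Real.rpow_mul (by linarith)]
    norm_num
  have hG1 : 1 ≤ G := Real.one_le_rpow hF (by norm_num)
  have hex : a ≤ G ∨ b ≤ G ∨ c ≤ G := by
    by_contra hcon
    push Not at hcon
    obtain ⟨h1, h2, h3⟩ := hcon
    have h4 : G * G < a * b := mul_lt_mul'' h1 h2 (by linarith) (by linarith)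
    have h5 : G * G * G < a * b * c := mul_lt_mul'' h4 h3 (by positivity) (by linarith)
    have h6 : G ^ 3 = G * G * G := by ring
    linarith
  have key : ∀ x, x ≤ G → 1 / G ≤ 1 / max 1 x := fun x hx =>
    one_div_le_one_div_of_le (by positivity) (max_le hG1 hx)
  have pos : ∀ x : ℝ, 0 ≤ 1 / max 1 x := fun x => by positivity
  have pa := pos a
  have pb := pos b
  have pc := pos c
  rcases hex with h | h | h
  · have := key a h
    linarith
  · have := key b h
    linarith
  · have := key c h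
    linarith

theorem line (f : Polynomial ℤ) (hd : f.natDegree = 3) (T : ℕ) :
    ∑ n ∈ (Finset.Icc (-(T : ℤ)) T).filter (fun n => f.eval n ≠ 0),
      1 / (((f.eval n).natAbs : ℝ) ^ ((1 : ℝ) / 3)) ≤
      18 * (1 + Real.log ((2 * T + 1 : ℕ) : ℝ)) := by
  set g := f.map (Int.castRingHom ℂ) with hg
  have hgd : g.natDegree = 3 := by
    rw [hg, Polynomial.natDegree_map_eq_of_injective (RingHom.injective_int _)]
    exact hd
  have hs : g.Splits := IsAlgClosed.splits g
  have hcard : g.roots.card = 3 := by rw [← hs.natDegree_eq_card_roots, hgd]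
  obtain ⟨a, b, c, habc⟩ := Multiset.card_eq_three.1 hcard
  have hprod := hs.eq_prod_roots
  rw [habc] at hprod
  have hlead : 1 ≤ ‖g.leadingCoeff‖ := by
    have h1 : g.leadingCoeff = ((f.leadingCoeff : ℤ) : ℂ) := by
      rw [hg, Polynomial.leadingCoeff_map_of_injective (RingHom.injective_int _)]
      rfl
    rw [h1, Complex.norm_intCast]
    have h2 : f.leadingCoeff ≠ 0 := by
      rw [Polynomial.leadingCoeff_ne_zero]
      rintro rfl
      simp at hd
    have h3 : 1 ≤ |f.leadingCoeff| := Int.one_le_abs h2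
    exact_mod_cast h3
  have hev : ∀ n : ℤ, ‖(n : ℂ) - a‖ * ‖(n : ℂ) - b‖ * ‖(n : ℂ) - c‖ ≤
      ((f.eval n).natAbs : ℝ) := by
    intro n
    have h1 : ((f.eval n : ℤ) : ℂ) =
        g.leadingCoeff * (((n : ℂ) - a) * ((n : ℂ) - b) * ((n : ℂ) - c)) := by
      have h2 : ((f.eval n : ℤ) : ℂ) = g.eval (n : ℂ) := by
        rw [hg, Polynomial.eval_intCast_map]
        rfl
      have h3 : g.eval (n : ℂ) = (Polynomial.C g.leadingCoeff * (Multiset.map
          (fun x => Polynomial.X - Polynomial.C x) {a, b, c}).prod).eval (n : ℂ) := by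
        rw [← hprod]
      rw [h2, h3, Polynomial.eval_mul, Polynomial.eval_C]
      congr 1
      simp [Polynomial.eval_mul]
      ring
    have h3 : ((f.eval n).natAbs : ℝ) = ‖((f.eval n : ℤ) : ℂ)‖ := by
      rw [Complex.norm_intCast, Nat.cast_natAbs, Int.cast_abs]
    rw [h3, h1, norm_mul, norm_mul, norm_mul]
    have h4 : 0 ≤ ‖(n : ℂ) - a‖ * ‖(n : ℂ) - b‖ * ‖(n : ℂ) - c‖ := by positivity
    nlinarith
  calc ∑ n ∈ (Finset.Icc (-(T : ℤ)) T).filter (fun n => f.eval n ≠ 0),
        1 / (((f.eval n).natAbs : ℝ) ^ ((1 : ℝ) / 3))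
      ≤ ∑ n ∈ (Finset.Icc (-(T : ℤ)) T).filter (fun n => f.eval n ≠ 0),
        (1 / max 1 ‖(n : ℂ) - a‖ + 1 / max 1 ‖(n : ℂ) - b‖ + 1 / max 1 ‖(n : ℂ) - c‖) := by
        refine Finset.sum_le_sum fun n hn => ?_
        rw [Finset.mem_filter] at hn
        apply cube3 _ (hev n)
        have h1 := Int.natAbs_pos.2 hn.2
        exact_mod_cast h1
    _ ≤ ∑ n ∈ Finset.Icc (-(T : ℤ)) T,
        (1 / max 1 ‖(n : ℂ) - a‖ + 1 / max 1 ‖(n : ℂ) - b‖ + 1 / max 1 ‖(n : ℂ) - c‖) := by
        apply Finset.sum_le_sum_of_subset_of_nonneg (Finset.filter_subset _ _)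
        intro n _ _
        positivity
    _ ≤ 18 * (1 + Real.log ((2 * T + 1 : ℕ) : ℝ)) := by
        rw [Finset.sum_add_distrib, Finset.sum_add_distrib]
        have h1 := line1 T a
        have h2 := line1 T b
        have h3 := line1 T c
        linarith

/-- the polynomial `n ↦ P (u + n e)` -/
noncomputable def lp (P : MvPolynomial (Fin 3) ℤ) (u e : Fin 3 → ℤ) : Polynomial ℤ :=
  MvPolynomial.aeval (fun j => Polynomial.C (u j) + Polynomial.X * Polynomial.C (e j)) P

theorem lp_eval (P : MvPolynomial (Fin 3) ℤ) (u e : Fin 3 → ℤ) (n : ℤ) :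
    (lp P u e).eval n = MvPolynomial.eval (fun j => u j + n * e j) P := by
  unfold lp
  have h1 : ∀ Q : MvPolynomial (Fin 3) ℤ, (Polynomial.eval n) (MvPolynomial.aeval
      (fun j => Polynomial.C (u j) + Polynomial.X * Polynomial.C (e j)) Q) =
      MvPolynomial.eval (fun j => u j + n * e j) Q := by
    intro Q
    induction Q using MvPolynomial.induction_on with
    | C c => simp
    | add p q hp hq => rw [map_add, Polynomial.eval_add, hp, hq, map_add]
    | mul_X p j hp =>
      rw [map_mul, Polynomial.eval_mul, hp, map_mul, MvPolynomial.aeval_X, MvPolynomial.eval_X]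
      simp
  exact h1 P

theorem lp_sum (P : MvPolynomial (Fin 3) ℤ) (u e : Fin 3 → ℤ) :
    lp P u e = ∑ m ∈ P.support, Polynomial.C (P.coeff m) *
      ((Polynomial.C (u 0) + Polynomial.X * Polynomial.C (e 0)) ^ (m 0) *
        (Polynomial.C (u 1) + Polynomial.X * Polynomial.C (e 1)) ^ (m 1) *
        (Polynomial.C (u 2) + Polynomial.X * Polynomial.C (e 2)) ^ (m 2)) := by
  unfold lp
  rw [MvPolynomial.aeval_def, MvPolynomial.eval₂_eq']
  refine Finset.sum_congr rfl fun m _ => ?_
  rw [Fin.prod_univ_three]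
  rfl

theorem deg_lin (a b : ℤ) : (Polynomial.C a + Polynomial.X * Polynomial.C b).natDegree ≤ 1 := by
  compute_degree

theorem coeff_lin (a b : ℤ) : (Polynomial.C a + Polynomial.X * Polynomial.C b).coeff 1 = b := by
  rw [Polynomial.coeff_add, Polynomial.coeff_C, if_neg one_ne_zero, Polynomial.coeff_mul_C,
    Polynomial.coeff_X_one, one_mul, zero_add]

theorem deg_pow (a b : ℤ) (m : ℕ) :
    ((Polynomial.C a + Polynomial.X * Polynomial.C b) ^ m).natDegree ≤ m := by
  have := Polynomial.natDegree_pow_le_of_le m (deg_lin a b)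
  simpa using this

theorem coeff_pow (a b : ℤ) (m : ℕ) :
    ((Polynomial.C a + Polynomial.X * Polynomial.C b) ^ m).coeff m = b ^ m := by
  have := Polynomial.coeff_pow_of_natDegree_le (m := m) (deg_lin a b)
  rw [mul_one, coeff_lin] at this
  exact this

theorem lp_deg {P : MvPolynomial (Fin 3) ℤ} (hP : P.IsHomogeneous 3) (u e : Fin 3 → ℤ)
    (he : MvPolynomial.eval e P ≠ 0) : (lp P u e).natDegree = 3 := by
  have hm : ∀ m ∈ P.support, m 0 + m 1 + m 2 = 3 := by
    intro m hm
    have h4 := hP (MvPolynomial.mem_support_iff.1 hm)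
    rw [Finsupp.weight_apply, Finsupp.sum_fintype _ _ (by simp), Fin.sum_univ_three] at h4
    simpa using h4
  have hle : (lp P u e).natDegree ≤ 3 := by
    rw [lp_sum]
    apply Polynomial.natDegree_sum_le_of_forall_le
    intro m hmm
    refine (Polynomial.natDegree_C_mul_le _ _).trans ?_
    refine (Polynomial.natDegree_mul_le_of_le (Polynomial.natDegree_mul_le_of_le
      (deg_pow _ _ _) (deg_pow _ _ _)) (deg_pow _ _ _)).trans ?_
    exact (hm m hmm).le
  have hco : (lp P u e).coeff 3 = MvPolynomial.eval e P := by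
    rw [lp_sum, Polynomial.finsetSum_coeff, MvPolynomial.eval_eq']
    refine Finset.sum_congr rfl fun m hmm => ?_
    have key : ((Polynomial.C (u 0) + Polynomial.X * Polynomial.C (e 0)) ^ (m 0) *
        (Polynomial.C (u 1) + Polynomial.X * Polynomial.C (e 1)) ^ (m 1) *
        (Polynomial.C (u 2) + Polynomial.X * Polynomial.C (e 2)) ^ (m 2)).coeff
          (m 0 + m 1 + m 2) = e 0 ^ m 0 * e 1 ^ m 1 * e 2 ^ m 2 := by
      rw [Polynomial.coeff_mul_add_eq_of_natDegree_le (Polynomial.natDegree_mul_le_of_le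
        (deg_pow _ _ _) (deg_pow _ _ _)) (deg_pow _ _ _),
        Polynomial.coeff_mul_add_eq_of_natDegree_le (deg_pow _ _ _) (deg_pow _ _ _),
        coeff_pow, coeff_pow, coeff_pow]
    rw [hm m hmm] at key
    rw [Polynomial.coeff_C_mul, Fin.prod_univ_three, key]
  apply le_antisymm hle
  apply Polynomial.le_natDegree_of_ne_zero
  rw [hco]
  exact he

theorem card_box (i0 : Fin 3) (A B : Finset ℤ) :
    (Fintype.piFinset (fun j : Fin 3 => if j = i0 then A else B)).card = A.card * B.card ^ 2 := by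
  rw [Fintype.card_piFinset, Fin.prod_univ_three]
  fin_cases i0 <;> simp <;> ring

end SumAux

open SumAux in
theorem sum_ : S_SUM := by
  classical
  intro P hP hP0
  obtain ⟨e, he⟩ : ∃ e : Fin 3 → ℤ, MvPolynomial.eval e P ≠ 0 := by
    by_contra hcon
    push Not at hcon
    exact hP0 (MvPolynomial.funext fun x => by rw [hcon x, map_zero])
  obtain ⟨i0, hi0⟩ : ∃ i0, e i0 ≠ 0 := by
    by_contra hcon
    push Not at hcon
    apply he
    have h1 : e = 0 := funext hcon
    rw [h1, MvPolynomial.eval_zero, MvPolynomial.constantCoeff_eq]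
    apply hP.coeff_eq_zero
    simp
  set M := ht e with hM
  refine ⟨(e i0).natAbs * (2 * (1 + (M : ℝ)) + 1) ^ 2 * 54, by positivity, ?_⟩
  intro T hT
  set S := (bx 3 T).filter (fun t => MvPolynomial.eval t P ≠ 0) with hS
  set φ : (Fin 3 → ℤ) → (Fin 3 → ℤ) := fun t j => t j - (t i0 / e i0) * e j with hφ
  set B : Finset (Fin 3 → ℤ) := Fintype.piFinset (fun j : Fin 3 => if j = i0 then
    Finset.Ico 0 (((e i0).natAbs : ℕ) : ℤ) else
    Finset.Icc (-(((1 + M) * T : ℕ) : ℤ)) (((1 + M) * T : ℕ) : ℤ)) with hB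
  have hdiv : ∀ t ∈ S, |t i0 / e i0| ≤ (T : ℤ) := by
    intro t htS
    rw [hS, Finset.mem_filter, mem_bx] at htS
    have h1 := le_ht' t i0
    have h2 := Int.natAbs_ediv_le_natAbs (t i0) (e i0)
    have h3 : (ht t : ℤ) ≤ T := by exact_mod_cast htS.1
    rw [Int.abs_eq_natAbs] at h1 ⊢
    omega
  have hmaps : ∀ t ∈ S, φ t ∈ B := by
    intro t htS
    have hq := hdiv t htS
    rw [hS, Finset.mem_filter, mem_bx] at htS
    rw [hB, Fintype.mem_piFinset]
    intro j
    by_cases hj : j = i0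
    · rw [if_pos hj, Finset.mem_Ico, hj]
      have h1 : φ t i0 = t i0 % e i0 := by
        have := Int.emod_add_mul_ediv (t i0) (e i0)
        simp only [hφ]
        linarith
      rw [h1]
      refine ⟨Int.emod_nonneg _ hi0, ?_⟩
      have := Int.emod_lt_abs (t i0) hi0
      rwa [Int.abs_eq_natAbs] at this
    · rw [if_neg hj, Finset.mem_Icc, ← abs_le]
      have h1 := le_ht' t j
      have h2 := le_ht' e j
      have h3 : (ht t : ℤ) ≤ T := by exact_mod_cast htS.1
      calc |φ t j| ≤ |t j| + |(t i0 / e i0) * e j| := abs_sub _ _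
        _ ≤ (T : ℤ) + T * M := by
            rw [abs_mul]
            have h4 : |t i0 / e i0| * |e j| ≤ (T : ℤ) * M :=
              mul_le_mul hq h2 (abs_nonneg _) (by positivity)
            linarith
        _ = (((1 + M) * T : ℕ) : ℤ) := by
            push_cast
            ring
  set G : (Fin 3 → ℤ) → ℝ := fun t =>
    1 / (((MvPolynomial.eval t P).natAbs : ℝ) ^ ((1 : ℝ) / 3)) with hG
  have hfib : ∀ b ∈ B, ∑ t ∈ S.filter (fun t => φ t = b), G t ≤
      18 * (1 + Real.log ((2 * T + 1 : ℕ) : ℝ)) := by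
    intro b _
    have hback : ∀ t, φ t = b → t = fun j => b j + (t i0 / e i0) * e j := by
      intro t ht
      funext j
      rw [← ht]
      simp only [hφ]
      ring
    have hinj : Set.InjOn (fun t : Fin 3 → ℤ => t i0 / e i0)
        ((S.filter (fun t => φ t = b) : Finset (Fin 3 → ℤ)) : Set (Fin 3 → ℤ)) := by
      intro t ht t' ht' h
      rw [Finset.mem_coe, Finset.mem_filter] at ht ht'
      have h' : t i0 / e i0 = t' i0 / e i0 := h
      rw [hback t ht.2, hback t' ht'.2, h']
    have hline := line (lp P b e) (lp_deg hP b e he) T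
    refine le_trans ?_ hline
    have h1 : ∑ t ∈ S.filter (fun t => φ t = b), G t =
        ∑ n ∈ (S.filter (fun t => φ t = b)).image (fun t : Fin 3 → ℤ => t i0 / e i0),
          1 / ((((lp P b e).eval n).natAbs : ℝ) ^ ((1 : ℝ) / 3)) := by
      rw [Finset.sum_image hinj]
      refine Finset.sum_congr rfl fun t ht => ?_
      rw [Finset.mem_filter] at ht
      simp only [hG]
      rw [lp_eval, ← hback t ht.2]
    rw [h1]
    apply Finset.sum_le_sum_of_subset_of_nonneg
    · intro n hn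
      rw [Finset.mem_image] at hn
      obtain ⟨t, ht, rfl⟩ := hn
      rw [Finset.mem_filter] at ht
      rw [Finset.mem_filter, Finset.mem_Icc, ← abs_le]
      refine ⟨hdiv t ht.1, ?_⟩
      rw [lp_eval, ← hback t ht.2]
      exact (Finset.mem_filter.1 ht.1).2
    · intro n _ _
      positivity
  have hTr : (1 : ℝ) ≤ T := by exact_mod_cast hT
  have hlogT : 0 ≤ Real.log T := Real.log_nonneg hTr
  have hlog : 1 + Real.log ((2 * T + 1 : ℕ) : ℝ) ≤ 3 * (1 + Real.log T) := by
    have h1 : Real.log ((2 * T + 1 : ℕ) : ℝ) ≤ Real.log (3 * T) := by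
      apply Real.log_le_log
      · positivity
      · push_cast
        linarith
    rw [Real.log_mul (by norm_num) (by positivity)] at h1
    have h2 : Real.log 3 ≤ 3 - 1 := Real.log_le_sub_one_of_pos (by norm_num)
    linarith
  have hcard : (B.card : ℝ) ≤ (e i0).natAbs * ((2 * (1 + (M : ℝ)) + 1) * T) ^ 2 := by
    rw [hB, card_box, Int.card_Ico, Int.card_Icc]
    have h1 : ((((1 + M) * T : ℕ) : ℤ) + 1 - -(((1 + M) * T : ℕ) : ℤ)).toNat =
        2 * ((1 + M) * T) + 1 := by omega
    have h2 : ((((e i0).natAbs : ℕ) : ℤ) - 0).toNat = (e i0).natAbs := by omega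
    rw [h1, h2]
    push_cast
    gcongr
    nlinarith
  calc ∑ t ∈ S, G t = ∑ b ∈ B, ∑ t ∈ S.filter (fun t => φ t = b), G t :=
        (Finset.sum_fiberwise_of_maps_to hmaps G).symm
    _ ≤ ∑ b ∈ B, 18 * (1 + Real.log ((2 * T + 1 : ℕ) : ℝ)) := Finset.sum_le_sum hfib
    _ = B.card * (18 * (1 + Real.log ((2 * T + 1 : ℕ) : ℝ))) := by
        rw [Finset.sum_const, nsmul_eq_mul]
    _ ≤ ((e i0).natAbs * ((2 * (1 + (M : ℝ)) + 1) * T) ^ 2) *
        (18 * (3 * (1 + Real.log T))) := by
        apply mul_le_mul hcard _ _ (by positivity)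
        · linarith
        · have : 0 ≤ Real.log ((2 * T + 1 : ℕ) : ℝ) := Real.log_natCast_nonneg _
          positivity
    _ = (e i0).natAbs * (2 * (1 + (M : ℝ)) + 1) ^ 2 * 54 * (T : ℝ) ^ 2 * (1 + Real.log T) := by
        ring

end Pool.Agent.R38.NC
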