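import Pool.Agent.R38.NC.Stm

set_option autoImplicit false

/-! Part TRI (helper790): the number of primitive vectors with small brackets. -/

namespace Pool.Agent.R38.NC

open Finset

namespace TriAux

lemma prim_dvd {n : ℕ} {v : Fin n → ℤ} (hv : Prim v) {M c : ℤ} (h : ∀ i, M ∣ c * v i) :
    M ∣ c := by
  have h1 : Finset.univ.gcd v = 1 := by
    have h2 : IsUnit (Finset.univ.gcd v) := hv _ fun i => Finset.gcd_dvd (Finset.mem_univ i)
    have h3 : normalize (Finset.univ.gcd v) = Finset.univ.gcd v := Finset.normalize_gcd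
    rw [← h3]
    exact normalize_eq_one.2 h2
  have h4 : M ∣ Finset.univ.gcd (fun i => c * v i) := Finset.dvd_gcd fun i _ => h i
  rw [Finset.gcd_mul_left, h1, mul_one] at h4
  exact dvd_normalize_iff.1 h4

lemma cnt {n : ℕ} {S : Finset (Fin n → ℤ)} {N : (Fin n → ℤ) → (Fin n → ℤ) → ℤ}
    (hP : ∀ v ∈ S, Prim v) (hN : ∀ u ∈ S, ∀ v ∈ S, u ≠ v → N u v ≠ 0)
    (ha : ∀ u ∈ S, ∀ v ∈ S, N v u = -N u v)
    (hJ : ∀ u ∈ S, ∀ v ∈ S, ∀ w ∈ S, ∀ i, N v w * u i + N w u * v i + N u v * w i = 0)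
    {v1 v2 : Fin n → ℤ} (h1 : v1 ∈ S) (h2 : v2 ∈ S) (h12 : v1 ≠ v2)
    (hm : ∀ v ∈ S, |N v1 v| ≤ |N v1 v2|) {T : Finset (Fin n → ℤ)} (hT : T ⊆ S)
    (hT1 : v1 ∉ T) (hT2 : v2 ∉ T) {Y : ℕ} (hY : ∀ v ∈ T, |N v v2| ≤ (Y : ℤ)) :
    T.card ≤ 4 * Y := by
  have key : ∀ v ∈ S, ∀ i, N v1 v2 * v i = N v v2 * v1 i + N v1 v * v2 i := by
    intro v hv i
    have h3 := hJ v hv v1 h1 v2 h2 i
    rw [ha v hv v2 h2, ha v1 h1 v hv] at h3
    linarith
  have hM := hN v1 h1 v2 h2 h12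
  have hD : (((Icc (-(Y : ℤ)) Y).erase 0) ×ˢ (Finset.univ : Finset Bool)).card = 4 * Y := by
    rw [card_product, card_erase_of_mem (by simp), Int.card_Icc]
    simp only [Finset.card_univ, Fintype.card_bool]
    omega
  rw [← hD]
  refine Finset.card_le_card_of_injOn (fun v => (N v v2, decide (0 < N v1 v))) ?_ ?_
  · intro v hv
    have hv' : v ∈ T := hv
    simp only [coe_product, coe_erase, coe_Icc, coe_univ, Set.mem_prod, Set.mem_sdiff,
      Set.mem_Icc, Set.mem_singleton_iff, Set.mem_univ, and_true]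
    exact ⟨abs_le.1 (hY v hv'), hN v (hT hv') v2 h2 fun h => hT2 (h ▸ hv')⟩
  · intro v hv w hw hvw
    have hv' : v ∈ T := hv
    have hw' : w ∈ T := hw
    simp only [Prod.mk.injEq] at hvw
    obtain ⟨e1, e2⟩ := hvw
    have e2' : 0 < N v1 v ↔ 0 < N v1 w := by simpa using e2
    have hd : N v1 v2 ∣ N v1 v - N v1 w := by
      refine prim_dvd (hP v2 h2) fun i => ⟨v i - w i, ?_⟩
      have a := key v (hT hv') i
      have b := key w (hT hw') i
      rw [e1] at a
      linarith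
    have hb1 := abs_le.1 (hm v (hT hv'))
    have hb2 := abs_le.1 (hm w (hT hw'))
    have hn1 : N v1 v ≠ 0 := hN v1 h1 v (hT hv') fun h => hT1 (h ▸ hv')
    have hn2 : N v1 w ≠ 0 := hN v1 h1 w (hT hw') fun h => hT1 (h ▸ hw')
    have e3 : N v1 v - N v1 w = 0 := by
      refine Int.eq_zero_of_abs_lt_dvd ((abs_dvd _ _).2 hd) ?_
      rw [abs_lt]
      by_cases hp : 0 < N v1 v
      · have := e2'.1 hp
        constructor <;> omega
      · have h5 : ¬ 0 < N v1 w := fun h => hp (e2'.2 h)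
        constructor <;> omega
    have e4 : N v1 v = N v1 w := by omega
    funext i
    have a := key v (hT hv') i
    have b := key w (hT hw') i
    rw [e1, e4, ← b] at a
    exact mul_left_cancel₀ hM a

end TriAux

open TriAux in
theorem tri_ : S_TRI := by
  classical
  intro n S N hP hN ha hJ
  by_cases hc : S.card ≤ 2
  · refine ⟨fun Q _ => by omega, fun W hW _ => ?_⟩
    have : (S.card : ℝ) ≤ 2 := by exact_mod_cast hc
    linarith
  rw [not_le] at hc
  obtain ⟨a, haS, b, hbS, hab⟩ := Finset.one_lt_card.1 (by omega : 1 < S.card)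
  obtain ⟨⟨v1, v2⟩, hv, hmax⟩ := Finset.exists_max_image (S ×ˢ S) (fun q => |N q.1 q.2|)
    ⟨(a, b), mem_product.2 ⟨haS, hbS⟩⟩
  obtain ⟨h1, h2⟩ := mem_product.1 hv
  have hmax' : ∀ u ∈ S, ∀ v ∈ S, |N u v| ≤ |N v1 v2| := fun u hu v hv =>
    hmax (u, v) (mem_product.2 ⟨hu, hv⟩)
  dsimp only at h1 h2
  have h12 : v1 ≠ v2 := by
    intro h
    have h0 : N v2 v2 = 0 := by
      have := ha v2 h2 v2 h2
      omega
    have h3 := hmax' a haS b hbS
    rw [h, h0, abs_zero] at h3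
    exact hN a haS b hbS hab (abs_nonpos_iff.1 h3)
  have habs : |N v2 v1| = |N v1 v2| := by rw [ha v1 h1 v2 h2, abs_neg]
  set T := (S.erase v1).erase v2 with hTdef
  have hTS : T ⊆ S := (erase_subset _ _).trans (erase_subset _ _)
  have hT1 : v1 ∉ T := by simp [hTdef]
  have hT2 : v2 ∉ T := by simp [hTdef]
  have hcard : S.card = T.card + 2 := by
    rw [hTdef, card_erase_of_mem (mem_erase.2 ⟨h12.symm, h2⟩), card_erase_of_mem h1]
    omega
  refine ⟨fun Q hQ => ?_, fun W hW hW3 => ?_⟩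
  · have := cnt hP hN ha hJ h1 h2 h12 (fun v hv => hmax' v1 h1 v hv) hTS hT1 hT2
      (Y := Q) (fun v hv => hQ v (hTS hv) v2 h2)
    omega
  · have hW0 : 0 ≤ W := by linarith
    have small : ∀ x y z : ℤ, |x| ≤ |y| → |x| ≤ |z| → ((|y * z * x| : ℤ) : ℝ) ≤ W ^ 3 →
        |x| ≤ ((⌊W⌋₊ : ℕ) : ℤ) := by
      intro x y z hxy hxz h
      have h3 : |x| ^ 3 ≤ |y * z * x| := by
        rw [abs_mul, abs_mul]
        have h4 := mul_le_mul hxy hxz (abs_nonneg x) (abs_nonneg y)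
        have h5 := mul_le_mul_of_nonneg_right h4 (abs_nonneg x)
        calc |x| ^ 3 = |x| * |x| * |x| := by ring
          _ ≤ _ := h5
      have h4 : ((|x| : ℤ) : ℝ) ^ 3 ≤ W ^ 3 := by
        refine le_trans ?_ h
        exact_mod_cast h3
      have h5 : ((|x| : ℤ) : ℝ) ≤ W := le_of_pow_le_pow_left₀ (by norm_num) hW0 h4
      have h6 : x.natAbs ≤ ⌊W⌋₊ := by
        refine Nat.le_floor ?_
        rwa [Nat.cast_natAbs]
      rw [Int.abs_eq_natAbs]
      exact_mod_cast h6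
    have c1 := cnt hP hN ha hJ h1 h2 h12 (fun v hv => hmax' v1 h1 v hv)
      (T := T.filter fun v => |N v v2| ≤ |N v1 v|) ((filter_subset _ _).trans hTS)
      (fun h => hT1 (mem_of_mem_filter _ h)) (fun h => hT2 (mem_of_mem_filter _ h))
      (Y := ⌊W⌋₊) (by
        intro v hv
        obtain ⟨hvT, hle⟩ := mem_filter.1 hv
        have hvS := hTS hvT
        refine small _ (N v1 v2) (N v1 v) (hmax' v hvS v2 h2) hle ?_
        have h3 := hW3 v1 h1 v hvS v2 h2
        rw [ha v1 h1 v2 h2] at h3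
        have h4 : N v1 v * N v v2 * -N v1 v2 = -(N v1 v2 * N v1 v * N v v2) := by ring
        rwa [h4, abs_neg] at h3)
    have c2 := cnt hP hN ha hJ h2 h1 h12.symm
      (fun v hv => by rw [habs]; exact hmax' v2 h2 v hv)
      (T := T.filter fun v => ¬ |N v v2| ≤ |N v1 v|) ((filter_subset _ _).trans hTS)
      (fun h => hT2 (mem_of_mem_filter _ h)) (fun h => hT1 (mem_of_mem_filter _ h))
      (Y := ⌊W⌋₊) (by
        intro v hv
        obtain ⟨hvT, hle⟩ := mem_filter.1 hv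
        have hvS := hTS hvT
        have hle' : |N v v1| ≤ |N v v2| := by
          rw [ha v1 h1 v hvS, abs_neg]
          exact (not_le.1 hle).le
        refine small _ (N v1 v2) (N v v2) (hmax' v hvS v1 h1) hle' ?_
        have h3 := hW3 v1 h1 v2 h2 v hvS
        rw [ha v hvS v2 h2] at h3
        have h4 : N v1 v2 * -N v v2 * N v v1 = -(N v1 v2 * N v v2 * N v v1) := by ring
        rwa [h4, abs_neg] at h3)
    have hs := Finset.card_filter_add_card_filter_not (s := T) (fun v => |N v v2| ≤ |N v1 v|)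
    have hf : ((⌊W⌋₊ : ℕ) : ℝ) ≤ W := Nat.floor_le hW0
    have ht : S.card ≤ 8 * ⌊W⌋₊ + 2 := by omega
    have ht' : (S.card : ℝ) ≤ 8 * (⌊W⌋₊ : ℝ) + 2 := by exact_mod_cast ht
    linarith

end Pool.Agent.R38.NC
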