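import Pool.Agent.R38.NC.Stm

/-!
# Part BAS: coordinates adapted to a rational point of a conic
-/

set_option autoImplicit false

namespace Pool.Agent.R38.NC

open Matrix Finset

namespace BasAux

theorem bez (f : Fin 3 → ℤ) (hf : f ≠ 0) : ∃ (g : ℤ) (f' u : Fin 3 → ℤ), g ≠ 0 ∧
    (∀ i, f i = g * f' i) ∧ u 0 * f' 0 + u 1 * f' 1 + u 2 * f' 2 = 1 := by
  obtain ⟨d, hd⟩ : ∃ d : ℤ, d = Int.gcd (f 0) (f 1) := ⟨_, rfl⟩
  obtain ⟨g, hg⟩ : ∃ g : ℤ, g = Int.gcd d (f 2) := ⟨_, rfl⟩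
  have h1 : d = f 0 * Int.gcdA (f 0) (f 1) + f 1 * Int.gcdB (f 0) (f 1) := by
    rw [hd]
    exact Int.gcd_eq_gcd_ab _ _
  have h2 : g = d * Int.gcdA d (f 2) + f 2 * Int.gcdB d (f 2) := by
    rw [hg]
    exact Int.gcd_eq_gcd_ab _ _
  have hgd : g ∣ d := by rw [hg]; exact Int.gcd_dvd_left _ _
  have hg2 : g ∣ f 2 := by rw [hg]; exact Int.gcd_dvd_right _ _
  have hg0 : g ∣ f 0 := hgd.trans (by rw [hd]; exact Int.gcd_dvd_left _ _)
  have hg1 : g ∣ f 1 := hgd.trans (by rw [hd]; exact Int.gcd_dvd_right _ _)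
  obtain ⟨a0, ha0⟩ := hg0
  obtain ⟨a1, ha1⟩ := hg1
  obtain ⟨a2, ha2⟩ := hg2
  have hne : g ≠ 0 := by
    intro h0
    apply hf
    funext i
    fin_cases i
    · show f 0 = 0
      rw [ha0, h0, zero_mul]
    · show f 1 = 0
      rw [ha1, h0, zero_mul]
    · show f 2 = 0
      rw [ha2, h0, zero_mul]
  refine ⟨g, ![a0, a1, a2], ![Int.gcdA (f 0) (f 1) * Int.gcdA d (f 2),
    Int.gcdB (f 0) (f 1) * Int.gcdA d (f 2), Int.gcdB d (f 2)], hne, ?_, ?_⟩
  · intro i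
    fin_cases i
    · exact ha0
    · exact ha1
    · exact ha2
  · show Int.gcdA (f 0) (f 1) * Int.gcdA d (f 2) * a0 +
      Int.gcdB (f 0) (f 1) * Int.gcdA d (f 2) * a1 + Int.gcdB d (f 2) * a2 = 1
    apply mul_left_cancel₀ hne
    generalize Int.gcdA (f 0) (f 1) = A at *
    generalize Int.gcdB (f 0) (f 1) = B at *
    generalize Int.gcdA d (f 2) = A' at *
    generalize Int.gcdB d (f 2) = B' at *
    linear_combination (-A * A') * ha0 - B * A' * ha1 - B' * ha2 - A' * h1 - h2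

end BasAux

open BasAux in
theorem bas_ : S_BAS := by
  intro M _ hdet x hx hq
  have hx0 : x ≠ 0 := by
    intro h
    have h1 := hx 0 (fun i => by rw [h]; exact dvd_refl 0)
    exact not_isUnit_zero h1
  -- a vector `u` with `u . x = 1`
  obtain ⟨g1, x', u', _, hgx, hu'⟩ := bez x hx0
  have hunit : IsUnit g1 := hx g1 (fun i => ⟨x' i, hgx i⟩)
  have hg11 : g1 * g1 = 1 := by
    rcases Int.isUnit_iff.1 hunit with h | h <;> rw [h] <;> norm_num
  obtain ⟨u, hu⟩ : ∃ u : Fin 3 → ℤ, u 0 * x 0 + u 1 * x 1 + u 2 * x 2 = 1 := by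
    refine ⟨fun i => g1 * u' i, ?_⟩
    show g1 * u' 0 * x 0 + g1 * u' 1 * x 1 + g1 * u' 2 * x 2 = 1
    rw [hgx 0, hgx 1, hgx 2]
    linear_combination (u' 0 * x' 0 + u' 1 * x' 1 + u' 2 * x' 2) * hg11 + hu'
  -- the linear functional
  obtain ⟨f, hf⟩ : ∃ f : Fin 3 → ℤ, f = M.mulVec x := ⟨_, rfl⟩
  have hfi : ∀ i, f i = M i 0 * x 0 + M i 1 * x 1 + M i 2 * x 2 := by
    intro i
    rw [hf]
    simp [Matrix.mulVec, dotProduct, Fin.sum_univ_three]
  have hf0 : f ≠ 0 := by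
    intro h
    rw [hf] at h
    exact hx0 (Matrix.eq_zero_of_mulVec_eq_zero hdet h)
  have hfx : x 0 * f 0 + x 1 * f 1 + x 2 * f 2 = 0 := by
    rw [hf]
    unfold qf at hq
    simpa [dotProduct, Fin.sum_univ_three] using hq
  obtain ⟨g, f', e, hg, hgf, he⟩ := bez f hf0
  have hfx' : x 0 * f' 0 + x 1 * f' 1 + x 2 * f' 2 = 0 := by
    apply mul_left_cancel₀ hg
    rw [hgf 0, hgf 1, hgf 2] at hfx
    linear_combination hfx
  refine ⟨!![f' 1 * u 2 - f' 2 * u 1, e 0, x 0;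
             f' 2 * u 0 - f' 0 * u 2, e 1, x 1;
             f' 0 * u 1 - f' 1 * u 0, e 2, x 2], ?_, ?_, ?_⟩
  · have h1 : (!![f' 1 * u 2 - f' 2 * u 1, e 0, x 0;
             f' 2 * u 0 - f' 0 * u 2, e 1, x 1;
             f' 0 * u 1 - f' 1 * u 0, e 2, x 2] : Matrix (Fin 3) (Fin 3) ℤ).det = 1 := by
      rw [Matrix.det_fin_three]
      simp only [Matrix.of_apply, Matrix.cons_val', Matrix.cons_val_zero, Matrix.cons_val_one,
        Matrix.cons_val]
      linear_combination (u 0 * x 0 + u 1 * x 1 + u 2 * x 2) * he + hu -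
        (u 0 * e 0 + u 1 * e 1 + u 2 * e 2) * hfx'
    rw [h1]
    exact isUnit_one
  · intro i
    fin_cases i <;> rfl
  · simp only [Matrix.mul_apply, Matrix.transpose_apply, Fin.sum_univ_three, Matrix.of_apply,
      Matrix.cons_val', Matrix.cons_val_zero, Matrix.cons_val_one, Matrix.cons_val]
    have h0 := hfi 0
    have h1 := hfi 1
    have h2 := hfi 2
    rw [hgf 0] at h0
    rw [hgf 1] at h1
    rw [hgf 2] at h2
    linear_combination (-(f' 1 * u 2 - f' 2 * u 1)) * h0 - (f' 2 * u 0 - f' 0 * u 2) * h1 -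
      (f' 0 * u 1 - f' 1 * u 0) * h2

end Pool.Agent.R38.NC
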